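import Pool.Agent.H33.MB.Seq

/-!
# The payoff set in the Cohen model
-/

set_option autoImplicit false

namespace MB

open BV PK HM HC Pool.Agent.H86.CM Cardinal

variable {X : Type} {B : Type} [CompleteBooleanAlgebra B]

theorem fo_fun (i j : ℕ) : FO.{1} fun _ E w =>
    IsFun E (w i) (fun n => E n (w j)) (fun k => E k (w j)) := by
  unfold IsFun
  repeat' first
    | exact fo_mem _ _
    | exact fo_eq _ _
    | exact fo_opair _ _ _
    | exact fo_app _ _ _
    | refine fo_and ?_ ?_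
    | refine fo_imp ?_ ?_
    | refine fo_all ?_
    | refine fo_ex ?_

/-- Boolean value of: the `ξ`-th Cohen real has the value `k` at `n` -/
noncomputable def cv (e : Cn X → B) (ξ : X) (n k : ℕ) : B :=
  if k = 1 then coh e ξ n else if k = 0 then (coh e ξ n)ᶜ else ⊥

theorem pt_cv (e : Cn X → B) (ξ : X) (n : ℕ) : Pt (cv e ξ n) := by
  constructor
  · rw [eq_top_iff, ← sup_compl_eq_top (x := coh e ξ n)]
    refine sup_le ?_ ?_
    · exact le_iSup_of_le 1 (by simp [cv])
    · exact le_iSup_of_le 0 (by simp [cv])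
  · intro k l hkl
    unfold cv
    by_cases hk : k = 1
    · by_cases hl : l = 0
      · simp [hk, hl]
      · have hl1 : l ≠ 1 := fun h => hkl (hk.trans h.symm)
        simp [hl, hl1]
    · by_cases hk0 : k = 0
      · by_cases hl : l = 1
        · simp [hk0, hl]
        · have hl0 : l ≠ 0 := fun h => hkl (hk0.trans h.symm)
          simp [hl, hl0]
      · simp [hk, hk0]

/-- the value of the Cohen real at `n` according to the ultrafilter `V` -/
theorem cv_mem (e : Cn X → B) (ξ : X) (n : ℕ) (V : UF B) :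
    ∃ k, (k = 0 ∨ k = 1) ∧ cv e ξ n k ∈ V := by
  by_cases h : coh e ξ n ∈ V
  · exact ⟨1, Or.inr rfl, by simpa [cv] using h⟩
  · refine ⟨0, Or.inl rfl, ?_⟩
    have h1 : cv e ξ n 0 = (coh e ξ n)ᶜ := by simp [cv]
    rw [h1]
    exact V.compl_mem_iff.2 h

open Classical in
/-- the first `n` bits of the Cohen real according to `V` -/
noncomputable def ub (e : Cn X → B) (ξ : X) (V : UF B) (n : ℕ) : Fin n → Bool :=
  fun a => decide (coh e ξ a ∈ V)

/-- Boolean value of: the first `n` bits of the Cohen real are `f` -/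
noncomputable def cb' (e : Cn X → B) (ξ : X) (n : ℕ) (f : Fin n → Bool) : B :=
  ⨅ a ∈ (Finset.univ : Finset (Fin n)), if f a = true then coh e ξ a else (coh e ξ a)ᶜ

theorem fin_iInf_mem' {ι : Type*} (U : UF B) (F : Finset ι) (f : ι → B) (h : ∀ a ∈ F, f a ∈ U) :
    (⨅ a ∈ F, f a) ∈ U := by
  classical
  induction F using Finset.induction_on with
  | empty => simpa using U.top_mem
  | insert a s ha ih =>
    rw [Finset.iInf_insert]
    exact U.inf_mem (h a (Finset.mem_insert_self a s))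
      (ih fun x hx => h x (Finset.mem_insert_of_mem hx))

theorem cb'_mem (e : Cn X → B) (ξ : X) (n : ℕ) (f : Fin n → Bool) (V : UF B) :
    cb' e ξ n f ∈ V ↔ f = ub e ξ V n := by
  classical
  constructor
  · intro h
    funext a
    have h1 : (if f a = true then coh e ξ a else (coh e ξ a)ᶜ) ∈ V :=
      V.mem_of_le h (iInf₂_le a (Finset.mem_univ a))
    unfold ub
    by_cases ha : f a = true
    · rw [if_pos ha] at h1
      rw [ha]
      exact (decide_eq_true h1).symm
    · rw [if_neg ha, V.compl_mem_iff] at h1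
      rw [Bool.not_eq_true] at ha
      rw [ha]
      exact (decide_eq_false h1).symm
  · rintro rfl
    refine fin_iInf_mem' V _ _ fun a _ => ?_
    unfold ub
    by_cases ha : coh e ξ a ∈ V
    · rw [if_pos (decide_eq_true ha)]
      exact ha
    · rw [if_neg (by rw [decide_eq_false ha]; simp), V.compl_mem_iff]
      exact ha

/-- Boolean value of: `k` is the answer at `n` of the strategy `h` to the `ξ`-th Cohen real -/
noncomputable def yv (e : Cn X → B) (h : List Bool → ℕ → B) (ξ : X) (n k : ℕ) : B :=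
  ⨆ f ∈ (Finset.univ : Finset (Fin (n + 1) → Bool)), cb' e ξ (n + 1) f ⊓ h (List.ofFn f) k

theorem yv_mem (e : Cn X → B) (h : List Bool → ℕ → B) (ξ : X) (n k : ℕ) (V : UF B) :
    yv e h ξ n k ∈ V ↔ h (List.ofFn (ub e ξ V (n + 1))) k ∈ V := by
  constructor
  · intro h1
    obtain ⟨f, -, hf⟩ := V.exists_of_biSup_mem _ h1
    rw [UF.inf_mem_iff, cb'_mem] at hf
    rw [← hf.1]
    exact hf.2
  · intro h1
    refine V.mem_of_le (V.inf_mem ((cb'_mem e ξ (n + 1) _ V).2 rfl) h1) ?_
    exact le_iSup₂ (f := fun (f : Fin (n + 1) → Bool) (_ : f ∈ Finset.univ) =>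
      cb' e ξ (n + 1) f ⊓ h (List.ofFn f) k) (ub e ξ V (n + 1)) (Finset.mem_univ _)

theorem pt_yv (e : Cn X → B) {h : List Bool → ℕ → B} (hh : ∀ u, Pt (h u)) (ξ : X) (n : ℕ) :
    Pt (yv e h ξ n) := by
  constructor
  · refine UF.eq_top_of_forall fun V => ?_
    refine V.mem_of_le ((cb'_mem e ξ (n + 1) _ V).2 rfl) ?_
    have h1 : cb' e ξ (n + 1) (ub e ξ V (n + 1)) =
        ⨆ k, cb' e ξ (n + 1) (ub e ξ V (n + 1)) ⊓ h (List.ofFn (ub e ξ V (n + 1))) k := by
      rw [← inf_iSup_eq, (hh _).1, inf_top_eq]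
    rw [h1]
    refine iSup_mono fun k => ?_
    exact le_iSup₂ (f := fun (f : Fin (n + 1) → Bool) (_ : f ∈ Finset.univ) =>
      cb' e ξ (n + 1) f ⊓ h (List.ofFn f) k) (ub e ξ V (n + 1)) (Finset.mem_univ _)
  · intro k l hkl
    refine UF.eq_bot_of_forall fun V hV => ?_
    rw [UF.inf_mem_iff, yv_mem, yv_mem] at hV
    exact hkl ((hh _).eq hV.1 hV.2)

/-- name of the payoff set: the strategies `h ξ` answer to the Cohen reals -/
noncomputable def pay (e : Cn X → B) (h : X → List Bool → ℕ → B) : BSet B :=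
  BSet.mk X (fun ξ => opr (fnn (cv e ξ)) (fnn (yv e (h ξ) ξ))) fun _ => ⊤

theorem app_pay (e : Cn X → B) (h : X → List Bool → ℕ → B) (ξ : X) (U : UF B) :
    App (MU.E U) (MU.mk U (pay e h)) (MU.mk U (fnn (cv e ξ))) (MU.mk U (fnn (yv e (h ξ) ξ))) := by
  rw [← los_app]
  exact U.mem_of_le U.top_mem (vl_le_bmem (pay e h) ξ)

theorem isPayoff_pay (e : Cn X → B) {h : X → List Bool → ℕ → B} (hh : ∀ ξ u, Pt (h ξ u))
    (U : UF B) : IsPayoff (MU.E U) (om U) (MU.mk U (pay e h)) := by
  have hP : FDef fun (M : Type 1) E w => ∀ x y, IsOPair E (w 0) x y →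
      IsFun E x (fun n => E n (w 1)) (fun k => E k (w 1)) ∧
      IsFun E y (fun n => E n (w 1)) (fun k => E k (w 1)) := by
    show FO _
    repeat' first
      | exact fo_opair _ _ _
      | exact fo_fun _ _
      | refine fo_and ?_ ?_
      | refine fo_imp ?_ ?_
      | refine fo_all ?_
  rintro x y ⟨q, hq, hqf⟩
  refine ball_nam hP (fun _ => chk B Ordinal.omega0) (pay e h) ⊤ ?_ U U.top_mem q hqf x y hq
  intro V _ ξ _
  have hξ : ∃ η : X, η = ξ := ⟨ξ, rfl⟩
  obtain ⟨η, hη⟩ := hξ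
  subst hη
  intro x y hxy
  obtain ⟨h1, h2⟩ := isOPair_inj hxy
    (isOPair_opr V (fnn (cv e η)) (fnn (yv e (h η) η)))
  rw [show x = MU.mk V (fnn (cv e η)) from h1, show y = MU.mk V (fnn (yv e (h η) η)) from h2]
  exact ⟨isFun_fnn (pt_cv e η) V, isFun_fnn (pt_yv e (hh η) η) V⟩

end MB
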