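import Pool.Agent.H33.MB.One

/-!
# The Cohen model: one payoff set is undetermined for all nonempty sets of boards
-/

set_option autoImplicit false

namespace MB

open BV PK HM HC Pool.Agent.H86.CM Cardinal

section Card

variable {X : Type} [Infinite X] {B : Type} [CompleteBooleanAlgebra B] {e : Cn X → B}

theorem exists_code (he : DenseEmb (Cn X) B e) (b : B) :
    ∃ z : (ℕ → X) × Set (Cn ℕ), (⨆ q : z.2, e (push z.1 q.1)) = b := by
  obtain ⟨S, hS, hb⟩ := exists_su he b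
  obtain ⟨ι, hι, -, hSι⟩ := exists_enum S hS (Classical.arbitrary X)
  have hb' := hb.mono he hSι
  refine ⟨(ι, {q | e (push ι q) ≤ b}), le_antisymm (iSup_le fun q => q.2) ?_⟩
  by_contra hcon
  have h1 : b ⊓ (⨆ q : {q | e (push ι q) ≤ b}, e (push ι q.1))ᶜ ≠ ⊥ := fun h0 =>
    hcon (by rwa [← sdiff_eq, sdiff_eq_bot_iff] at h0)
  obtain ⟨p, hp⟩ := he.dense _ h1
  have h2 : e (rs (Set.range ι) p) ≤ b := hb' p (hp.trans inf_le_left)
  rw [← push_pull hι] at h2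
  apply he.ne_bot p
  rw [← le_bot_iff, ← inf_compl_eq_bot (a := ⨆ q : {q | e (push ι q) ≤ b}, e (push ι q.1))]
  refine le_inf ?_ (hp.trans inf_le_right)
  refine le_trans ?_ (le_iSup (fun q : {q | e (push ι q) ≤ b} => e (push ι q.1)) ⟨pull hι p, h2⟩)
  refine he.mono _ _ ?_
  rw [push_pull hι]
  exact le_rs _ p

theorem mk_B_le (he : DenseEmb (Cn X) B e) (hX : #X = 2 ^ ℵ₀) : #B ≤ 2 ^ ℵ₀ := by
  have h1 : #B ≤ #((ℕ → X) × Set (Cn ℕ)) :=
    Cardinal.mk_le_of_surjective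
      (f := fun z : (ℕ → X) × Set (Cn ℕ) => ⨆ q : z.2, e (push z.1 q.1)) fun b => exists_code he b
  have h2 : #(Cn ℕ) ≤ ℵ₀ := by
    have h3 : #(ℕ × ℕ) = ℵ₀ := by simp
    have h4 := Fp.mk_le (X := ℕ × ℕ) (by rw [h3])
    rw [h3] at h4
    exact h4
  have h3 : #(ℕ → X) = 2 ^ ℵ₀ := by
    rw [← Cardinal.power_def, hX, Cardinal.mk_nat, ← Cardinal.power_mul, Cardinal.aleph0_mul_aleph0]
  have h4 : #(Set (Cn ℕ)) ≤ 2 ^ ℵ₀ := by
    rw [Cardinal.mk_set]
    exact Cardinal.power_le_power_left two_ne_zero h2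
  have hc : ℵ₀ ≤ (2 ^ ℵ₀ : Cardinal.{0}) := (Cardinal.cantor ℵ₀).le
  calc #B ≤ #((ℕ → X) × Set (Cn ℕ)) := h1
    _ = #(ℕ → X) * #(Set (Cn ℕ)) := by rw [Cardinal.mk_prod, Cardinal.lift_id, Cardinal.lift_id]
    _ ≤ 2 ^ ℵ₀ * 2 ^ ℵ₀ := mul_le_mul' h3.le h4
    _ = 2 ^ ℵ₀ := Cardinal.mul_eq_self hc

/-- an enumeration of the names of the strategies -/
theorem exists_book (he : DenseEmb (Cn X) B e) (hX : #X = 2 ^ ℵ₀) :
    ∃ h : X → List Bool → ℕ → B, (∀ ξ u, Pt (h ξ u)) ∧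
      ∀ H : List Bool → ℕ → B, (∀ u, Pt (H u)) → ∃ ξ, h ξ = H := by
  let T : Type := {H : List Bool → ℕ → B // ∀ u, Pt (H u)}
  have hT : #T ≤ #X := by
    have hL : #(List Bool) = ℵ₀ := Cardinal.mk_eq_aleph0 _
    calc #T ≤ #(List Bool → ℕ → B) := Cardinal.mk_subtype_le _
      _ = (#B ^ ℵ₀) ^ ℵ₀ := by
          rw [← Cardinal.power_def, hL, ← Cardinal.power_def, Cardinal.mk_nat]
      _ ≤ ((2 ^ ℵ₀) ^ ℵ₀) ^ ℵ₀ :=
          Cardinal.power_le_power_right (Cardinal.power_le_power_right (mk_B_le he hX))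
      _ = #X := by
          rw [hX, ← Cardinal.power_mul, ← Cardinal.power_mul, Cardinal.aleph0_mul_aleph0,
            Cardinal.aleph0_mul_aleph0]
  obtain ⟨i⟩ := (Cardinal.le_def _ _).1 hT
  have hne : Nonempty T := ⟨⟨fun _ k => if k = 0 then ⊤ else ⊥, fun _ => pt_one 0⟩⟩
  refine ⟨fun ξ => (Function.invFun i ξ).1, fun ξ => (Function.invFun i ξ).2, fun H hH => ?_⟩
  refine ⟨i ⟨H, hH⟩, ?_⟩
  show (Function.invFun i (i ⟨H, hH⟩)).1 = H
  rw [Function.leftInverse_invFun i.injective]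

end Card

/-- There is a model of ZFC with a payoff set for which the multiboard game is undetermined for every
nonempty set of boards. -/
theorem exists_model : ∃ (M : Type 1) (E : M → M → Prop), IsZFC E ∧ UndetAll E := by
  let X : Type := ℕ → Bool
  have hX : #X = 2 ^ ℵ₀ := by
    show #(ℕ → Bool) = 2 ^ ℵ₀
    rw [← Cardinal.power_def]
    simp
  obtain ⟨B, iB, e, he⟩ := exists_denseEmb (Cn X)
  obtain ⟨h, hpt, hsurj⟩ := exists_book he hX
  have hne : (⊤ : B) ≠ ⊥ := fun h0 => he.ne_bot Fp.emp (le_bot_iff.1 (le_top.trans h0.le))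
  obtain ⟨U, -⟩ := UF.exists_mem (B := B) hne
  exact ⟨MU U, MU.E U, isZFC U, om U, MU.mk U (pay e h), isOmega_om U, isPayoff_pay e hpt U,
    fun D hD => ⟨not_oneWins he hpt U D, not_twoWins hsurj U D hD⟩⟩

end MB
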