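import Pool.Agent.H33.MB.Sent
import Pool.Agent.H46.HC.Nam

/-!
# Names of functions, moves, plays and positions
-/

set_option autoImplicit false

namespace MB

open BV PK HM HC Pool.Agent.H86.CM

variable {B : Type} [CompleteBooleanAlgebra B]

theorem le_beq_vl {ι : Type} (A : ι → BSet B) (a a' : ι → B) (c : B) (h1 : ∀ i, c ⊓ a i ≤ a' i)
    (h2 : ∀ i, c ⊓ a' i ≤ a i) : c ≤ beq (BSet.mk ι A a) (BSet.mk ι A a') := by
  rw [beq]
  refine le_inf (le_iInf fun i => le_himp_iff.2 ?_) (le_iInf fun i => le_himp_iff.2 ?_)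
  · exact (h1 i).trans (le_iSup_of_le i (by rw [beq_refl, inf_top_eq]))
  · exact (h2 i).trans (le_iSup_of_le i (by rw [beq_refl, inf_top_eq]))

theorem le_beq_nm {ι : Type} (A A' : ι → BSet B) (a : ι → B) (c : B)
    (h : ∀ i, c ≤ beq (A i) (A' i)) : c ≤ beq (BSet.mk ι A a) (BSet.mk ι A' a) := by
  rw [beq]
  refine le_inf (le_iInf fun i => le_himp_iff.2 ?_) (le_iInf fun i => le_himp_iff.2 ?_)
  · exact le_iSup_of_le i (le_inf inf_le_right (inf_le_left.trans (h i)))
  · exact le_iSup_of_le i (le_inf inf_le_right (inf_le_left.trans (h i)))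

/-- to prove a definable property for all elements of the value of a name `x`, below `b` -/
theorem ball_nam {P : ∀ (M : Type 1), (M → M → Prop) → (ℕ → M) → Prop} (hP : FDef P)
    (w : ℕ → BSet B) (x : BSet B) (b : B)
    (h : ∀ (U : UF B), b ∈ U → ∀ i : x.Idx, x.vl i ∈ U →
      P (MU U) (MU.E U) (scons (MU.mk U (x.nm i)) (fun n => MU.mk U (w n))))
    (U : UF B) (hb : b ∈ U) (m : MU U) (hm : MU.E U m (MU.mk U x)) :
    P (MU U) (MU.E U) (scons m (fun n => MU.mk U (w n))) := by
  obtain ⟨f, hf, hfP⟩ := exists_bool (FDef2.ofDef hP) w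
  obtain ⟨z, rfl⟩ := MU.mk_surj U m
  have h0 : ∀ V : UF B, f z ∈ V ↔
      P (MU V) (MU.E V) (scons (MU.mk V z) (fun n => MU.mk V (w n))) := fun V => hfP V z
  rw [← h0]
  rw [MU.E_mk] at hm
  refine U.mem_of_le (U.inf_mem hb hm) ?_
  rw [bmem_eq, inf_iSup_eq]
  refine iSup_le fun i => ?_
  have h1 : b ⊓ x.vl i ≤ f (x.nm i) := UF.le_of_forall fun V hV => by
    rw [UF.inf_mem_iff] at hV
    exact (hfP V _).2 (h V hV.1 i hV.2)
  rw [← inf_assoc]
  refine (inf_le_inf_right _ h1).trans ?_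
  rw [inf_comm, beq_symm]
  exact hf _ _

/-! ## Disjoint names -/

/-- different indices denote different elements -/
def Dj (D : BSet B) : Prop :=
  ∀ i j : D.Idx, i ≠ j → D.vl i ⊓ D.vl j ⊓ beq (D.nm i) (D.nm j) = ⊥

theorem exists_dj_aux {ι : Type} [LinearOrder ι] [WellFoundedLT ι] (A : ι → BSet B) (a : ι → B) :
    ∃ D' : BSet B, beq (BSet.mk ι A a) D' = ⊤ ∧ Dj D' := by
  let a' : ι → B := fun i => a i ⊓ (⨆ j : Set.Iio i, a j ⊓ beq (A j) (A i))ᶜ
  refine ⟨BSet.mk ι A a', ?_, ?_⟩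
  · have hle : ∀ z, bmem z (BSet.mk ι A a') ≤ bmem z (BSet.mk ι A a) := by
      intro z
      rw [bmem_mk, bmem_mk]
      exact iSup_mono fun i => inf_le_inf_right _ inf_le_left
    have hge : ∀ z i, a i ⊓ beq z (A i) ≤ bmem z (BSet.mk ι A a') := by
      intro z i
      induction i using WellFoundedLT.induction with
      | ind i ih =>
        have h1 : a i ⊓ beq z (A i) = (a' i ⊓ beq z (A i)) ⊔
            (a i ⊓ beq z (A i) ⊓ ⨆ j : Set.Iio i, a j ⊓ beq (A j) (A i)) := by
          have h2 : a' i ⊓ beq z (A i) = a i ⊓ beq z (A i) ⊓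
              (⨆ j : Set.Iio i, a j ⊓ beq (A j) (A i))ᶜ := by
            show a i ⊓ (⨆ j : Set.Iio i, a j ⊓ beq (A j) (A i))ᶜ ⊓ beq z (A i) = _
            rw [inf_right_comm]
          rw [h2, ← inf_sup_left, sup_comm, sup_compl_eq_top, inf_top_eq]
        rw [h1]
        refine sup_le ?_ ?_
        · rw [bmem_mk]
          exact le_iSup (fun i => a' i ⊓ beq z (A i)) i
        · rw [inf_iSup_eq]
          refine iSup_le fun j => ?_
          refine le_trans ?_ (ih j.1 j.2)
          refine le_inf (inf_le_right.trans inf_le_left) ?_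
          refine le_trans (le_inf (inf_le_left.trans inf_le_right)
            (inf_le_right.trans inf_le_right)) ?_
          rw [beq_symm (A j) (A i)]
          exact beq_trans z (A i) (A j)
    have heq : ∀ z, bmem z (BSet.mk ι A a) = bmem z (BSet.mk ι A a') := by
      intro z
      refine le_antisymm ?_ (hle z)
      rw [bmem_mk]
      exact iSup_le fun i => hge z i
    exact chs_eq_of_bmem heq
  · have hlt : ∀ i j : ι, i < j → a' i ⊓ a' j ⊓ beq (A i) (A j) = ⊥ := by
      intro i j hij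
      have h1 : a i ⊓ beq (A i) (A j) ≤ ⨆ k : Set.Iio j, a k ⊓ beq (A k) (A j) :=
        le_iSup (fun k : Set.Iio j => a k ⊓ beq (A k) (A j)) ⟨i, hij⟩
      rw [eq_bot_iff, ← inf_compl_eq_bot (a := ⨆ k : Set.Iio j, a k ⊓ beq (A k) (A j))]
      refine le_inf (le_trans (le_inf ?_ inf_le_right) h1) ?_
      · exact (inf_le_left.trans inf_le_left).trans inf_le_left
      · exact (inf_le_left.trans inf_le_right).trans inf_le_right
    have hne : ∀ i j : ι, i ≠ j → a' i ⊓ a' j ⊓ beq (A i) (A j) = ⊥ := by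
      intro i j hij
      rcases lt_or_gt_of_ne hij with h | h
      · exact hlt i j h
      · have h1 := hlt j i h
        rw [inf_comm (a' i) (a' j), beq_symm (A i) (A j)]
        exact h1
    exact hne

theorem exists_dj (D : BSet B) : ∃ D' : BSet B, beq D D' = ⊤ ∧ Dj D' := by
  obtain ⟨ι, A, a⟩ := D
  obtain ⟨hl, hw⟩ := exists_wellFoundedLT ι
  exact @exists_dj_aux B _ ι hl hw A a

/-- partitions of unity indexed by the natural numbers -/
def Pt (v : ℕ → B) : Prop := (⨆ k, v k) = ⊤ ∧ ∀ k l, k ≠ l → v k ⊓ v l = ⊥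

theorem Pt.eq {v : ℕ → B} (h : Pt v) {U : UF B} {k l : ℕ} (hk : v k ∈ U) (hl : v l ∈ U) :
    k = l := by
  by_contra hne
  have h1 := U.inf_mem hk hl
  rw [h.2 k l hne] at h1
  exact U.bot_notMem h1

/-! ## Moves -/

/-- name of the move with Boolean values `v i k` of: `k` is the value at the element `D.nm i` -/
noncomputable def mvn (D : BSet B) (v : D.Idx → ℕ → B) : BSet B :=
  BSet.mk (D.Idx × ℕ) (fun z => opr (D.nm z.1) (chk B (z.2 : Ordinal.{0})))
    fun z => D.vl z.1 ⊓ v z.1 z.2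

theorem app_mvn {D : BSet B} (hD : Dj D) (U : UF B) (i : D.Idx) (hi : D.vl i ∈ U)
    (v : D.Idx → ℕ → B) (k : ℕ) :
    App (MU.E U) (MU.mk U (mvn D v)) (MU.mk U (D.nm i)) (nn U k) ↔ v i k ∈ U := by
  unfold nn ck
  rw [← los_app]
  unfold mvn
  rw [bmem_mk]
  constructor
  · intro h
    have h1 := U.inf_mem hi h
    refine U.mem_of_le h1 ?_
    rw [inf_iSup_eq]
    refine iSup_le fun z => ?_
    obtain ⟨j, l⟩ := z
    rw [beq_opr]
    by_cases hl : l = k
    · by_cases hj : j = i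
      · subst hj hl
        exact (inf_le_right.trans inf_le_left).trans inf_le_right
      · refine le_trans ?_ (bot_le : (⊥ : B) ≤ _)
        rw [← hD i j (Ne.symm hj)]
        refine le_inf (le_inf inf_le_left ?_) ?_
        · exact (inf_le_right.trans inf_le_left).trans inf_le_left
        · exact (inf_le_right.trans inf_le_right).trans inf_le_left
    · rw [beq_chk_of_ne (fun h => hl (by exact_mod_cast h.symm))]
      simp
  · intro h
    refine U.mem_of_le (U.inf_mem hi h) ?_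
    refine le_trans ?_ (le_iSup _ (i, k))
    rw [beq_refl, inf_top_eq]

theorem mem_mvn {D : BSet B} (v : D.Idx → ℕ → B) (U : UF B) (p : MU U)
    (hp : MU.E U p (MU.mk U (mvn D v))) : ∃ x y, MU.E U x (MU.mk U D) ∧ MU.E U y (om U) ∧
      IsOPair (MU.E U) p x y := by
  have hP : FDef fun (M : Type 1) E w => ∃ x y, E x (w 1) ∧ E y (w 2) ∧ IsOPair E (w 0) x y := by
    show FO _
    repeat' first
      | exact fo_mem _ _
      | exact fo_opair _ _ _
      | refine fo_and ?_ ?_
      | refine fo_ex ?_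
  refine ball_nam hP (scons D fun _ => chk B Ordinal.omega0) (mvn D v) ⊤ ?_ U U.top_mem p hp
  intro V _ z hz
  have hz' : D.vl z.1 ⊓ v z.1 z.2 ∈ V := hz
  rw [UF.inf_mem_iff] at hz'
  refine ⟨MU.mk V (D.nm z.1), nn V z.2, ?_, E_nn_om V _, isOPair_opr V _ _⟩
  show bmem (D.nm z.1) D ∈ V
  exact V.mem_of_le hz'.1 (vl_le_bmem D z.1)

theorem isMove_mvn {D : BSet B} (hD : Dj D) {v : D.Idx → ℕ → B} (hv : ∀ i, Pt (v i)) (U : UF B) :
    IsMove (MU.E U) (om U) (MU.mk U D) (MU.mk U (mvn D v)) := by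
  have htot : ∀ x, MU.E U x (MU.mk U D) → ∃ y, App (MU.E U) (MU.mk U (mvn D v)) x y := by
    have hP : FDef fun (M : Type 1) E w => ∃ y, App E (w 1) (w 0) y := by
      show FO _
      repeat' first
        | exact fo_app _ _ _
        | refine fo_ex ?_
    intro x hx
    refine ball_nam hP (fun _ => mvn D v) D ⊤ ?_ U U.top_mem x hx
    intro V _ i hi
    have hQ : FDef fun (M : Type 1) E w => App E (w 1) (w 2) (w 0) := by
      show FO _
      exact fo_app _ _ _
    obtain ⟨m, _, hm⟩ := bex_om' hQ (scons (mvn D v) fun _ => D.nm i)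
      (fun k => D.vl i ⊓ v i k) (by
        intro W k hk
        rw [UF.inf_mem_iff] at hk
        exact (app_mvn hD W i hk.1 v k).2 hk.2) V (by
        rw [← inf_iSup_eq, (hv i).1, inf_top_eq]
        exact hi)
    exact ⟨m, hm⟩
  have hfun : ∀ x, MU.E U x (MU.mk U D) → ∀ y, MU.E U y (om U) → ∀ y', MU.E U y' (om U) →
      App (MU.E U) (MU.mk U (mvn D v)) x y → App (MU.E U) (MU.mk U (mvn D v)) x y' → y = y' := by
    have hP : FDef fun (M : Type 1) E w => ∀ y, E y (w 2) → ∀ y', E y' (w 2) →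
        App E (w 1) (w 0) y → App E (w 1) (w 0) y' → y = y' := by
      show FO _
      repeat' first
        | exact fo_mem _ _
        | exact fo_eq _ _
        | exact fo_app _ _ _
        | refine fo_imp ?_ ?_
        | refine fo_all ?_
    intro x hx
    refine ball_nam hP (scons (mvn D v) fun _ => chk B Ordinal.omega0) D ⊤ ?_ U U.top_mem x hx
    intro V _ i hi
    have hP1 : FDef fun (M : Type 1) E w => ∀ y', E y' (w 3) →
        App E (w 1) (w 2) (w 0) → App E (w 1) (w 2) y' → w 0 = y' := by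
      show FO _
      repeat' first
        | exact fo_mem _ _
        | exact fo_eq _ _
        | exact fo_app _ _ _
        | refine fo_imp ?_ ?_
        | refine fo_all ?_
    refine ball_om hP1 (scons (mvn D v) (scons (D.nm i) fun _ => chk B Ordinal.omega0)) (D.vl i)
      ?_ V hi
    intro V1 hV1 k
    have hP2 : FDef fun (M : Type 1) E w =>
        App E (w 1) (w 2) (w 3) → App E (w 1) (w 2) (w 0) → w 3 = w 0 := by
      show FO _
      repeat' first
        | exact fo_eq _ _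
        | exact fo_app _ _ _
        | refine fo_imp ?_ ?_
    refine ball_om hP2 (scons (mvn D v) (scons (D.nm i) fun _ => chk B (k : Ordinal.{0})))
      (D.vl i) ?_ V1 hV1
    intro V2 hV2 l h1 h2
    have h1' := (app_mvn hD V2 i hV2 v k).1 h1
    have h2' := (app_mvn hD V2 i hV2 v l).1 h2
    rw [(hv i).eq h1' h2']
    rfl
  refine ⟨mem_mvn v U, htot, ?_⟩
  intro x y y' h1 h2
  obtain ⟨p, hp, hpf⟩ := h1
  obtain ⟨p', hp', hpf'⟩ := h2
  obtain ⟨a, b, ha, hb, hab⟩ := mem_mvn v U p hpf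
  obtain ⟨a', b', ha', hb', hab'⟩ := mem_mvn v U p' hpf'
  obtain ⟨rfl, rfl⟩ := isOPair_inj hp hab
  obtain ⟨rfl, rfl⟩ := isOPair_inj hp' hab'
  exact hfun x ha y hb y' hb' ⟨p, hp, hpf⟩ ⟨p', hp', hpf'⟩

end MB
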