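import Pool.Agent.H33.MB.Two

/-!
# ONE has no winning strategy
-/

set_option autoImplicit false

namespace MB

open BV PK HM HC Pool.Agent.H86.CM Cardinal

/-- definition by course-of-values recursion -/
theorem exists_rec {Z : Type} [Nonempty Z] (Φ : (ℕ → Z) → ℕ → Z)
    (hΦ : ∀ v v' n, (∀ j < n, v j = v' j) → Φ v n = Φ v' n) : ∃ v : ℕ → Z, ∀ n, v n = Φ v n := by
  classical
  let z0 : Z := Classical.arbitrary Z
  let G : ∀ n : ℕ, (∀ j : ℕ, j < n → Z) → Z := fun n ih =>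
    Φ (fun j => if h : j < n then ih j h else z0) n
  let wf : WellFounded (fun a b : ℕ => a < b) := wellFounded_lt
  let v : ℕ → Z := wf.fix G
  have hv : ∀ n, v n = G n (fun j _ => v j) := fun n => wf.fix_eq G n
  refine ⟨v, fun n => (hv n).trans (hΦ _ _ n fun j hj => ?_)⟩
  exact dif_pos hj

variable {X : Type} {B : Type} [CompleteBooleanAlgebra B]

/-- countable supports for sequences -/
theorem exists_su_seq {e : Cn X → B} (he : DenseEmb (Cn X) B e) (b : ℕ → B) :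
    ∃ S : Set X, S.Countable ∧ ∀ k, Su e S (b k) := by
  choose S hS1 hS2 using fun k => exists_su he (b k)
  exact ⟨⋃ k, S k, Set.countable_iUnion hS1, fun k =>
    (hS2 k).mono he (Set.subset_iUnion S k)⟩

theorem exists_enum_set [Nonempty X] {S : Set X} (hS : S.Countable) :
    ∃ g : ℕ → X, S ⊆ Set.range g := by
  rcases S.eq_empty_or_nonempty with h | h
  · exact ⟨fun _ => Classical.arbitrary X, by rw [h]; exact Set.empty_subset _⟩
  · obtain ⟨g, hg⟩ := hS.exists_eq_range h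
    exact ⟨g, hg.le⟩

/-- `k + 1` has the value of `k` -/
def shft (v : ℕ → B) : ℕ → B
  | 0 => ⊥
  | k + 1 => v k

theorem pt_shft {v : ℕ → B} (h : Pt v) : Pt (shft v) := by
  constructor
  · rw [eq_top_iff, ← h.1]
    exact iSup_le fun k => le_iSup (shft v) (k + 1)
  · intro k l hkl
    cases k with
    | zero => exact bot_inf_eq _
    | succ k =>
      cases l with
      | zero => exact inf_bot_eq _
      | succ l => exact h.2 k l (fun h' => hkl (by rw [h']))

theorem resp_unique {U : UF B} {D s g n b k k' : MU U}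
    (hs : IsStrat (MU.E U) (om U) D s) (h : Resp (MU.E U) s g n b k)
    (h' : Resp (MU.E U) s g n b k') : k = k' := by
  obtain ⟨p, m, hp, hm, hk⟩ := h
  obtain ⟨p', m', hp', hm', hk'⟩ := h'
  have h1 := isRes_unique U hp hp'
  subst h1
  have h2 := hs.2.2 _ _ _ hm hm'
  subst h2
  obtain ⟨q, hq, hqf⟩ := hm
  obtain ⟨x, y, _, hy, hxy⟩ := hs.1 q hqf
  obtain ⟨_, rfl⟩ := isOPair_inj hq hxy
  exact hy.2.2 _ _ _ hk hk'

theorem le_coh_bit {e : Cn X → B} (he : DenseEmb (Cn X) B e) {p : Cn X} {i : X} {a : ℕ} {c : Bool}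
    (h : p.1 (i, a) = some c) : e p ≤ cv e i a (if c = true then 1 else 0) := by
  cases c with
  | true => simpa [cv] using le_coh h
  | false => simpa [cv] using le_coh_compl he h

theorem not_oneWins [Nonempty X] {e : Cn X → B} (he : DenseEmb (Cn X) B e)
    {h : X → List Bool → ℕ → B} (hpt : ∀ ξ u, Pt (h ξ u)) (U : UF B) (D : MU U) :
    ¬ OneWins (MU.E U) (om U) D (MU.mk U (pay e h)) := by
  classical
  rintro ⟨s, hs, hsw⟩
  obtain ⟨D, rfl, hdj⟩ := exists_dj_name U D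
  obtain ⟨s, rfl⟩ := MU.mk_surj U s
  obtain ⟨a, ha⟩ := exists_val (fo_one.{1} 0 1 2 3) (scons (chk B Ordinal.omega0) (scons D
    (scons s fun _ => pay e h)))
  have haU : a ∈ U := (ha U).2 ⟨hs, hsw⟩
  have ha1 : ∀ V : UF B, a ∈ V → IsStrat (MU.E V) (om V) (MU.mk V D) (MU.mk V s) :=
    fun V hV => ((ha V).1 hV).1
  have ha2 : ∀ V : UF B, a ∈ V → ∀ g, IsPlay (MU.E V) (om V) (MU.mk V D) g →
      ∃ b x y, MU.E V b (MU.mk V D) ∧ App (MU.E V) (MU.mk V (pay e h)) x y ∧
        RunOne (MU.E V) (om V) (MU.mk V s) g b x y :=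
    fun V hV => ((ha V).1 hV).2
  -- the answers of `s`
  have hPr : FDef fun (M : Type 1) E w => ∃ m, App E (w 1) (w 2) m ∧ App E m (w 3) (w 0) := by
    show FO _
    repeat' first
      | exact fo_app _ _ _
      | refine fo_and ?_ ?_
      | refine fo_ex ?_
  have hr0 : ∀ (p : BSet B) (i : D.Idx) (k : ℕ), ∃ c : B, ∀ V : UF B, c ∈ V ↔
      ∃ m, App (MU.E V) (MU.mk V s) (MU.mk V p) m ∧ App (MU.E V) m (MU.mk V (D.nm i)) (nn V k) :=
    fun p i k => exists_val hPr (scons (chk B (k : Ordinal.{0})) (scons s (scons p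
      fun _ => D.nm i)))
  choose rv hrv using hr0
  choose S hS1 hS2 using fun (p : BSet B) (i : D.Idx) => exists_su_seq he (rv p i)
  choose en hen using fun (p : BSet B) (i : D.Idx) => exists_enum_set (hS1 p i)
  -- the moves of TWO
  let mvs : (ℕ → D.Idx → ℕ → B) → ℕ → BSet B := fun v j => mvn D (v j)
  let Φ : (ℕ → D.Idx → ℕ → B) → ℕ → D.Idx → ℕ → B := fun v n i =>
    shft (yv e (h (en (sqn n.unpair.1 (mvs v)) i n.unpair.2))
      (en (sqn n.unpair.1 (mvs v)) i n.unpair.2) n)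
  obtain ⟨v, hv⟩ : ∃ v : ℕ → D.Idx → ℕ → B, ∀ n, v n = Φ v n := by
    refine exists_rec Φ ?_
    intro v v' n hvv
    have h1 : sqn n.unpair.1 (mvs v) = sqn n.unpair.1 (mvs v') := by
      unfold sqn
      congr 1
      funext j
      have h2 : v j = v' j := hvv j (lt_of_lt_of_le j.2 (Nat.unpair_left_le n))
      show opr (chk B ((j : ℕ) : Ordinal.{0})) (mvn D (v j)) = _
      rw [h2]
    show (fun i => shft (yv e (h (en (sqn n.unpair.1 (mvs v)) i n.unpair.2))
      (en (sqn n.unpair.1 (mvs v)) i n.unpair.2) n)) = _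
    rw [h1]
  have hvpt : ∀ n i, Pt (v n i) := by
    intro n i
    rw [hv]
    exact pt_shft (pt_yv e (hpt _) _ n)
  let A : ℕ → BSet B := mvs v
  have hAm : ∀ (V : UF B) (n : ℕ), IsMove (MU.E V) (om V) (MU.mk V D) (MU.mk V (A n)) :=
    fun V n => isMove_mvn hdj (hvpt n) V
  -- the Boolean values of the runs
  have hPρ : FDef fun (M : Type 1) E w =>
      RunOne E (w 0) (w 1) (w 2) (w 3) (w 4) (w 5) := fo_runOne 0 1 2 3 4 5
  have hρ0 : ∀ (i : D.Idx) (ξ : X), ∃ c : B, ∀ V : UF B, c ∈ V ↔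
      RunOne (MU.E V) (om V) (MU.mk V s) (MU.mk V (sq A)) (MU.mk V (D.nm i))
        (MU.mk V (fnn (cv e ξ))) (MU.mk V (fnn (yv e (h ξ) ξ))) :=
    fun i ξ => exists_val hPρ (scons (chk B Ordinal.omega0) (scons s (scons (sq A)
      (scons (D.nm i) (scons (fnn (cv e ξ)) fun _ => fnn (yv e (h ξ) ξ))))))
  choose ρ hρ using hρ0
  have hale : a ≤ ⨆ i, ⨆ ξ, D.vl i ⊓ ρ i ξ := by
    refine UF.le_of_forall fun V hV => ?_
    by_contra hcon
    obtain ⟨b, x, y, hb, hxy, hrun⟩ := ha2 V hV (MU.mk V (sq A)) (isPlay_sq hAm V)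
    have hPb : FDef fun (M : Type 1) E w => ∀ x y, App E (w 1) x y →
        ¬ RunOne E (w 2) (w 3) (w 4) (w 0) x y := by
      show FO _
      repeat' first
        | exact fo_app _ _ _
        | exact fo_runOne _ _ _ _ _ _
        | refine fo_not ?_
        | refine fo_imp ?_ ?_
        | refine fo_all ?_
    refine ball_nam hPb (scons (pay e h) (scons (chk B Ordinal.omega0) (scons s
      fun _ => sq A))) D ((⨆ i, ⨆ ξ, D.vl i ⊓ ρ i ξ)ᶜ) ?_ V (V.compl_mem_iff.2 hcon) b hb x y hxy hrun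
    intro W hW i hi x y hxy
    have hPq : FDef fun (M : Type 1) E w => ∀ x y, IsOPair E (w 0) x y →
        ¬ RunOne E (w 1) (w 2) (w 3) (w 4) x y := by
      show FO _
      repeat' first
        | exact fo_opair _ _ _
        | exact fo_runOne _ _ _ _ _ _
        | refine fo_not ?_
        | refine fo_imp ?_ ?_
        | refine fo_all ?_
    obtain ⟨q, hq, hqf⟩ := hxy
    refine ball_nam hPq (scons (chk B Ordinal.omega0) (scons s (scons (sq A) fun _ => D.nm i)))
      (pay e h) ((⨆ i, ⨆ ξ, D.vl i ⊓ ρ i ξ)ᶜ ⊓ D.vl i) ?_ W (W.inf_mem hW hi) q hqf x y hq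
    intro W' hW' ξ _
    have hη : ∃ η : X, η = ξ := ⟨ξ, rfl⟩
    obtain ⟨η, hη⟩ := hη
    subst hη
    intro x y hxy hrun
    obtain ⟨h1, h2⟩ := isOPair_inj hxy (isOPair_opr W' (fnn (cv e η)) (fnn (yv e (h η) η)))
    rw [show x = MU.mk W' (fnn (cv e η)) from h1,
      show y = MU.mk W' (fnn (yv e (h η) η)) from h2] at hrun
    rw [UF.inf_mem_iff, UF.compl_mem_iff] at hW'
    apply hW'.1
    refine W'.mem_of_le (W'.inf_mem hW'.2 ((hρ i η W').2 hrun)) ?_
    exact le_iSup_of_le i (le_iSup (fun ξ => D.vl i ⊓ ρ i ξ) η)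
  -- a condition
  obtain ⟨p, hp⟩ := he.dense a (U.ne_bot_of_mem haU)
  obtain ⟨q₁, hq₁, i, hi⟩ := he.exists_le_of_le_iSup (hp.trans hale)
  obtain ⟨q, hq, ξ, hξ⟩ := he.exists_le_of_le_iSup hi
  have hqa : e q ≤ a := (he.mono _ _ (hq.trans hq₁)).trans hp
  have hqi : e q ≤ D.vl i := hξ.trans inf_le_left
  have hqρ : e q ≤ ρ i ξ := hξ.trans inf_le_right
  by_cases hmem : ∃ k₀, ξ ∈ S (sqn k₀ A) i
  · -- TWO has avoided the answers `y_ξ`
    obtain ⟨k₀, hk₀⟩ := hmem
    obtain ⟨j, hj⟩ := hen (sqn k₀ A) i hk₀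
    set n := Nat.pair k₀ j with hn
    have hvn : v n i = shft (yv e (h ξ) ξ n) := by
      rw [hv]
      show shft (yv e (h (en (sqn n.unpair.1 (mvs v)) i n.unpair.2))
        (en (sqn n.unpair.1 (mvs v)) i n.unpair.2) n) = _
      have h1 : n.unpair = (k₀, j) := Nat.unpair_pair k₀ j
      rw [h1]
      have h2 : en (sqn (k₀, j).1 (mvs v)) i (k₀, j).2 = ξ := hj
      rw [h2]
    obtain ⟨r, hr, k, hk⟩ := he.exists_le_of_le_iSup (p := q) (f := yv e (h ξ) ξ n) (by
      rw [(pt_yv e (hpt ξ) ξ n).1]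
      exact le_top)
    obtain ⟨V, hV⟩ := UF.exists_mem (he.ne_bot r)
    have hVq : e q ∈ V := V.mem_of_le hV (he.mono r q hr)
    have hyk : yv e (h ξ) ξ n k ∈ V := V.mem_of_le hV hk
    have hrun := (hρ i ξ V).1 (V.mem_of_le hVq hqρ)
    obtain ⟨-, k', ⟨m, hm, hmk⟩, hyk'⟩ := hrun (nn V n) (E_nn_om V n)
    have h1 := (app_sq V A n m).1 hm
    subst h1
    have h2 : App (MU.E V) (MU.mk V (A n)) (MU.mk V (D.nm i)) (nn V (k + 1)) := by
      refine (app_mvn hdj V i (V.mem_of_le hVq hqi) (v n) (k + 1)).2 ?_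
      rw [hvn]
      exact hyk
    have h3 := (hAm V n).2.2 _ _ _ hmk h2
    have h4 := (isFun_fnn (pt_yv e (hpt ξ) ξ) V).2.2 _ _ _ hyk' ((app_fnn _ V n k).2 hyk)
    rw [h3] at h4
    have h5 := nn_inj V h4
    omega
  · -- the moves of ONE do not give a new Cohen real
    push Not at hmem
    obtain ⟨n, hn⟩ : ∃ n : ℕ, q.1 (ξ, n) = none := by
      by_contra hcon
      push Not at hcon
      have h1 : (Set.range fun n : ℕ => ((ξ, n) : X × ℕ)).Infinite :=
        Set.infinite_range_of_injective fun a b hab => by simpa using hab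
      refine h1 (q.2.subset ?_)
      rintro _ ⟨n, rfl⟩
      exact hcon n
    have hle : e q ≤ ⨆ k, rv (sqn n A) i k ⊓ cv e ξ n k := by
      refine UF.le_of_forall fun V hV => ?_
      have hrun := (hρ i ξ V).1 (V.mem_of_le hV hqρ)
      obtain ⟨⟨k', hk', hxk'⟩, -⟩ := hrun (nn V n) (E_nn_om V n)
      obtain ⟨k, -, hk⟩ := cv_mem e ξ n V
      have h1 := (isFun_fnn (pt_cv e ξ) V).2.2 _ _ _ hxk' ((app_fnn _ V n k).2 hk)
      subst h1
      obtain ⟨p', m, hp', hm, hmk⟩ := hk'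
      have h2 := isRes_unique V hp' (isRes_sqn V A n)
      subst h2
      refine V.mem_of_le (V.inf_mem ((hrv (sqn n A) i k V).2 ⟨m, hm, hmk⟩) hk) ?_
      exact le_iSup (fun k => rv (sqn n A) i k ⊓ cv e ξ n k) k
    obtain ⟨r, hr, k, hk⟩ := he.exists_le_of_le_iSup hle
    have hk01 : k = 0 ∨ k = 1 := by
      by_contra hcon
      push Not at hcon
      have h1 : cv e ξ n k = ⊥ := by simp [cv, hcon.1, hcon.2]
      rw [h1, inf_bot_eq] at hk
      exact he.ne_bot r (le_bot_iff.1 hk)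
    have hsup : e (rs (S (sqn n A) i) r) ≤ rv (sqn n A) i k :=
      hS2 (sqn n A) i k r (hk.trans inf_le_left)
    set t := glue q (rs (S (sqn n A) i) r) with ht
    have ht1 : t ≤ q := glue_le_left _ _
    have ht2 : t ≤ rs (S (sqn n A) i) r := by
      refine glue_le_right ?_
      intro z b1 b2 hz1 hz2
      rw [rs_some] at hz2
      have h3 := hr z b1 hz1
      rw [h3] at hz2
      exact Option.some.inj hz2.2
    have htn : t.1 (ξ, n) = none := by
      by_contra hne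
      obtain ⟨c, hc⟩ := Option.ne_none_iff_exists'.mp hne
      rcases glue_some hc with h1 | ⟨_, h1⟩
      · rw [hn] at h1
        exact absurd h1 (by simp)
      · rw [rs_some] at h1
        exact hmem n h1.1
    obtain ⟨t', ht', htb, -⟩ := Fp.exists_ext t (ξ, n) (decide (k = 0)) htn
    obtain ⟨V, hV⟩ := UF.exists_mem (he.ne_bot t')
    have hVt : e t ∈ V := V.mem_of_le hV (he.mono _ _ ht')
    have hVq : e q ∈ V := V.mem_of_le hVt (he.mono _ _ ht1)
    have h1 : rv (sqn n A) i k ∈ V := V.mem_of_le hVt ((he.mono _ _ ht2).trans hsup)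
    have h2 : cv e ξ n (if decide (k = 0) = true then 1 else 0) ∈ V :=
      V.mem_of_le hV (le_coh_bit he htb)
    obtain ⟨m, hm, hmk⟩ := (hrv (sqn n A) i k V).1 h1
    have h3 : Resp (MU.E V) (MU.mk V s) (MU.mk V (sq A)) (nn V n) (MU.mk V (D.nm i)) (nn V k) :=
      ⟨MU.mk V (sqn n A), m, isRes_sqn V A n, hm, hmk⟩
    have hrun := (hρ i ξ V).1 (V.mem_of_le hVq hqρ)
    obtain ⟨⟨k', hk', hxk'⟩, -⟩ := hrun (nn V n) (E_nn_om V n)
    have h4 := (isFun_fnn (pt_cv e ξ) V).2.2 _ _ _ hxk' ((app_fnn _ V n _).2 h2)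
    have h5 := resp_unique (ha1 V (V.mem_of_le hVq hqa)) h3 hk'
    rw [h4] at h5
    have h6 := nn_inj V h5
    rcases hk01 with rfl | rfl
    · simp at h6
    · simp at h6

end MB
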