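import Pool.Agent.H33.MB.Sent
import Pool.Agent.H71.HF.VdimA
import Pool.Agent.H92.PK.VZfc
import Pool.Agent.H92.PK.VCard
import Pool.Agent.H46.VL.GDefs

/-!
# The multiboard games in `(ZFSet, ∈)`
-/

set_option autoImplicit false

namespace MB

open BV PK HF Pool.Agent.H86.CM

/-- the function `f` between index types as a set -/
noncomputable def fz {I J : Type} (cI : I → ZFSet.{0}) (cJ : J → ZFSet.{0}) (f : I → J) :
    ZFSet.{0} :=
  ZFSet.range fun i => ZFSet.pair (cI i) (cJ (f i))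

section Fz

variable {I J : Type} {cI : I → ZFSet.{0}} {cJ : J → ZFSet.{0}}

theorem mem_fz (f : I → J) (p : ZFSet.{0}) :
    p ∈ fz cI cJ f ↔ ∃ i, p = ZFSet.pair (cI i) (cJ (f i)) := by
  unfold fz
  rw [ZFSet.mem_range]
  exact ⟨fun ⟨i, hi⟩ => ⟨i, hi.symm⟩, fun ⟨i, hi⟩ => ⟨i, hi.symm⟩⟩

theorem app_fz (f : I → J) (x y : ZFSet.{0}) :
    App VE (fz cI cJ f) x y ↔ ∃ i, x = cI i ∧ y = cJ (f i) := by
  rw [app_V, mem_fz]
  constructor
  · rintro ⟨i, hi⟩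
    exact ⟨i, ZFSet.pair_inj.1 hi⟩
  · rintro ⟨i, rfl, rfl⟩
    exact ⟨i, rfl⟩

theorem app_fz' (hI : Function.Injective cI) (f : I → J) (i : I) (y : ZFSet.{0}) :
    App VE (fz cI cJ f) (cI i) y ↔ y = cJ (f i) := by
  rw [app_fz]
  constructor
  · rintro ⟨j, hj, rfl⟩
    rw [hI hj]
  · rintro rfl
    exact ⟨i, rfl, rfl⟩

theorem fz_inj (hI : Function.Injective cI) (hJ : Function.Injective cJ) :
    Function.Injective (fz cI cJ) := by
  intro f g h
  funext i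
  have h1 := (app_fz' (cJ := cJ) hI f i (cJ (f i))).2 rfl
  rw [h, app_fz' hI] at h1
  exact hJ h1

theorem isFun_fz (hI : Function.Injective cI) {X Y : ZFSet.{0} → Prop}
    (hX : ∀ x, X x ↔ ∃ i, x = cI i) (hY : ∀ y, Y y ↔ ∃ j, y = cJ j) (F : ZFSet.{0}) :
    IsFun VE F X Y ↔ ∃ f : I → J, F = fz cI cJ f := by
  constructor
  · rintro ⟨h1, h2, h3⟩
    have h4 : ∀ i, ∃ j, App VE F (cI i) (cJ j) := by
      intro i
      obtain ⟨y, hy⟩ := h2 (cI i) ((hX _).2 ⟨i, rfl⟩)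
      obtain ⟨p, hp, hpF⟩ := id hy
      obtain ⟨x', y', _, hy', hxy⟩ := h1 p hpF
      obtain ⟨_, rfl⟩ := isOPair_inj hp hxy
      obtain ⟨j, rfl⟩ := (hY y).1 hy'
      exact ⟨j, hy⟩
    choose f hf using h4
    refine ⟨f, ?_⟩
    ext p
    rw [mem_fz]
    constructor
    · intro hp
      obtain ⟨x, y, hx, hy, hxy⟩ := h1 p hp
      obtain ⟨i, rfl⟩ := (hX x).1 hx
      have h5 := h3 _ _ _ ⟨p, hxy, hp⟩ (hf i)
      rw [isOPair_V] at hxy
      exact ⟨i, by rw [hxy, h5]⟩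
    · rintro ⟨i, rfl⟩
      have h5 := hf i
      rwa [app_V] at h5
  · rintro ⟨f, rfl⟩
    refine ⟨?_, ?_, ?_⟩
    · intro p hp
      obtain ⟨i, rfl⟩ := (mem_fz f p).1 hp
      exact ⟨cI i, cJ (f i), (hX _).2 ⟨i, rfl⟩, (hY _).2 ⟨f i, rfl⟩, (isOPair_V _ _ _).2 rfl⟩
    · intro x hx
      obtain ⟨i, rfl⟩ := (hX x).1 hx
      exact ⟨cJ (f i), (app_fz' hI f i _).2 rfl⟩
    · intro x y y' h4 h5
      obtain ⟨i, rfl, rfl⟩ := (app_fz f x y).1 h4
      exact ((app_fz' hI f i y').1 h5).symm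

end Fz

theorem mem_omz' (z : ZFSet.{0}) : VE z omz ↔ ∃ k : ℕ, z = num k := mem_omz z

theorem num_inj : Function.Injective num := fun _ _ h => VDIMA_num_inj h

theorem mem_num (z : ZFSet.{0}) (n : ℕ) : VE z (num n) ↔ ∃ k : Fin n, z = num k := by
  constructor
  · intro h
    have hz : z ∈ omz := by
      have h1 : z ∈ num n := h
      unfold num at h1
      rw [Ordinal.mem_toZFSet_iff] at h1
      obtain ⟨a, ha, rfl⟩ := h1
      unfold omz
      rw [Ordinal.mem_toZFSet_iff]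
      exact ⟨a, ha.trans (Ordinal.natCast_lt_omega0 n), rfl⟩
    obtain ⟨k, rfl⟩ := (mem_omz z).1 hz
    exact ⟨⟨k, (num_mem_num k n).1 h⟩, rfl⟩
  · rintro ⟨k, rfl⟩
    exact (num_mem_num k n).2 k.2

/-- a function from `ω` to `ω` as a set -/
noncomputable def wz (x : ℕ → ℕ) : ZFSet.{0} := fz num num x

theorem wz_inj : Function.Injective wz := fz_inj num_inj num_inj

theorem isFun_wz (F : ZFSet.{0}) : IsFun VE F (fun n => VE n omz) (fun k => VE k omz) ↔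
    ∃ x, F = wz x :=
  isFun_fz num_inj mem_omz' mem_omz' F

section Boards

variable {Bd : Type} {c : Bd → ZFSet.{0}}

/-- a move as a set -/
noncomputable def mz (c : Bd → ZFSet.{0}) (m : Bd → ℕ) : ZFSet.{0} := fz c num m

/-- a play as a set -/
noncomputable def pz (c : Bd → ZFSet.{0}) (g : ℕ → Bd → ℕ) : ZFSet.{0} := fz num (mz c) g

/-- a position as a set -/
noncomputable def lz (c : Bd → ZFSet.{0}) (l : List (Bd → ℕ)) : ZFSet.{0} :=
  fz (fun i : Fin l.length => num i) (mz c) fun i => l.get i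

/-- a strategy as a set -/
noncomputable def sz (c : Bd → ZFSet.{0}) (s : List (Bd → ℕ) → Bd → ℕ) : ZFSet.{0} :=
  fz (lz c) (mz c) s

theorem mz_inj (hc : Function.Injective c) : Function.Injective (mz c) := fz_inj hc num_inj

theorem fin_num_inj (n : ℕ) : Function.Injective fun i : Fin n => num i :=
  fun _ _ h => Fin.ext (num_inj h)

theorem lz_len {l l' : List (Bd → ℕ)} (h : lz c l = lz c l') : l.length ≤ l'.length := by
  by_contra hcon
  push Not at hcon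
  have h1 : App VE (lz c l) (num l'.length) (mz c (l.get ⟨l'.length, hcon⟩)) :=
    (app_fz _ _ _).2 ⟨⟨l'.length, hcon⟩, rfl, rfl⟩
  rw [h] at h1
  obtain ⟨i, hi, _⟩ := (app_fz _ _ _).1 h1
  have h2 := num_inj hi
  omega

theorem lz_inj (hc : Function.Injective c) : Function.Injective (lz c) := by
  intro l l' h
  have hlen : l.length = l'.length := le_antisymm (lz_len h) (lz_len h.symm)
  refine List.ext_getElem hlen fun n h1 h2 => ?_
  have h3 : App VE (lz c l) (num n) (mz c (l.get ⟨n, h1⟩)) :=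
    (app_fz _ _ _).2 ⟨⟨n, h1⟩, rfl, rfl⟩
  rw [h] at h3
  obtain ⟨i, hi, hi2⟩ := (app_fz _ _ _).1 h3
  have h4 : (i : ℕ) = n := (num_inj hi).symm
  have h5 := mz_inj hc hi2
  have h6 : i = ⟨n, h2⟩ := Fin.ext h4
  rw [h6] at h5
  exact h5

variable {D : ZFSet.{0}}

theorem isMove_V (hc : Function.Injective c) (hD : ∀ x, VE x D ↔ ∃ b, x = c b) (m : ZFSet.{0}) :
    IsMove VE omz D m ↔ ∃ m', m = mz c m' :=
  isFun_fz hc hD mem_omz' m

theorem isPlay_V (hc : Function.Injective c) (hD : ∀ x, VE x D ↔ ∃ b, x = c b) (g : ZFSet.{0}) :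
    IsPlay VE omz D g ↔ ∃ g', g = pz c g' :=
  isFun_fz num_inj mem_omz' (isMove_V hc hD) g

theorem isPos_V (hc : Function.Injective c) (hD : ∀ x, VE x D ↔ ∃ b, x = c b) (p : ZFSet.{0}) :
    (∃ n, VE n omz ∧ IsPos VE omz D n p) ↔ ∃ l, p = lz c l := by
  constructor
  · rintro ⟨n, hn, hp⟩
    obtain ⟨n, rfl⟩ := (mem_omz' n).1 hn
    obtain ⟨f, rfl⟩ := (isFun_fz (fin_num_inj n) (fun x => mem_num x n) (isMove_V hc hD) p).1 hp
    refine ⟨List.ofFn f, ?_⟩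
    ext q
    unfold lz
    rw [mem_fz, mem_fz]
    have hlen : (List.ofFn f).length = n := List.length_ofFn
    constructor
    · rintro ⟨i, rfl⟩
      refine ⟨⟨i, by rw [hlen]; exact i.2⟩, ?_⟩
      simp
    · rintro ⟨i, rfl⟩
      refine ⟨⟨i, lt_of_lt_of_eq i.2 hlen⟩, ?_⟩
      simp
  · rintro ⟨l, rfl⟩
    refine ⟨num l.length, (mem_omz' _).2 ⟨_, rfl⟩, ?_⟩
    exact (isFun_fz (fin_num_inj l.length) (fun x => mem_num x l.length) (isMove_V hc hD) _).2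
      ⟨_, rfl⟩

theorem isStrat_V (hc : Function.Injective c) (hD : ∀ x, VE x D ↔ ∃ b, x = c b) (s : ZFSet.{0}) :
    IsStrat VE omz D s ↔ ∃ s', s = sz c s' :=
  isFun_fz (lz_inj hc) (isPos_V hc hD) (isMove_V hc hD) s

theorem isRes_V (g : ℕ → Bd → ℕ) (n : ℕ) (p : ZFSet.{0}) :
    IsRes VE (pz c g) (num n) p ↔ p = lz c ((List.range n).map g) := by
  have hlen : ((List.range n).map g).length = n := by simp
  have key : ∀ q, q ∈ lz c ((List.range n).map g) ↔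
      (q ∈ pz c g ∧ ∃ x y, VE x (num n) ∧ IsOPair VE q x y) := by
    intro q
    unfold lz pz
    rw [mem_fz, mem_fz]
    constructor
    · rintro ⟨i, rfl⟩
      refine ⟨⟨i, by simp⟩, num i, _, (mem_num _ _).2 ⟨⟨i, lt_of_lt_of_eq i.2 hlen⟩, rfl⟩,
        (isOPair_V _ _ _).2 rfl⟩
    · rintro ⟨⟨k, rfl⟩, x, y, hx, hxy⟩
      rw [isOPair_V] at hxy
      obtain ⟨h1, _⟩ := ZFSet.pair_inj.1 hxy
      obtain ⟨i, hi⟩ := (mem_num _ _).1 hx
      rw [← h1] at hi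
      have h2 : k = i := num_inj hi
      refine ⟨⟨k, by rw [hlen, h2]; exact i.2⟩, ?_⟩
      simp
  constructor
  · intro h
    ext q
    rw [key]
    exact h q
  · rintro rfl q
    exact key q

theorem valAt_V (hc : Function.Injective c) (g : ℕ → Bd → ℕ) (n : ℕ) (b : Bd) (k : ZFSet.{0}) :
    ValAt VE (pz c g) (num n) (c b) k ↔ k = num (g n b) := by
  unfold ValAt pz
  constructor
  · rintro ⟨m, hm, hk⟩
    rw [app_fz' num_inj] at hm
    subst hm
    exact (app_fz' hc _ b k).1 hk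
  · rintro rfl
    exact ⟨mz c (g n), (app_fz' num_inj _ n _).2 rfl, (app_fz' hc _ b _).2 rfl⟩

theorem resp_V (hc : Function.Injective c) (s : List (Bd → ℕ) → Bd → ℕ) (g : ℕ → Bd → ℕ) (n : ℕ)
    (b : Bd) (k : ZFSet.{0}) :
    Resp VE (sz c s) (pz c g) (num n) (c b) k ↔ k = num (s ((List.range n).map g) b) := by
  unfold Resp
  constructor
  · rintro ⟨p, m, hp, hm, hk⟩
    rw [isRes_V] at hp
    subst hp
    unfold sz at hm
    rw [app_fz' (lz_inj hc)] at hm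
    subst hm
    exact (app_fz' hc _ b k).1 hk
  · rintro rfl
    exact ⟨_, mz c (s ((List.range n).map g)), (isRes_V g n _).2 rfl,
      (app_fz' (lz_inj hc) _ _ _).2 rfl, (app_fz' hc _ b _).2 rfl⟩

theorem isSuc_V (n : ℕ) (z : ZFSet.{0}) : IsSuc VE (num n) z ↔ z = num (n + 1) := by
  have key : ∀ y, y ∈ num (n + 1) ↔ (y ∈ num n ∨ y = num n) := by
    intro y
    have h1 : y ∈ num (n + 1) ↔ ∃ k : Fin (n + 1), y = num k := mem_num y (n + 1)
    have h2 : y ∈ num n ↔ ∃ k : Fin n, y = num k := mem_num y n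
    rw [h1, h2]
    constructor
    · rintro ⟨k, rfl⟩
      rcases Nat.lt_succ_iff_lt_or_eq.1 k.2 with h | h
      · exact Or.inl ⟨⟨k, h⟩, rfl⟩
      · exact Or.inr (by rw [h])
    · rintro (⟨k, rfl⟩ | rfl)
      · exact ⟨⟨k, by omega⟩, rfl⟩
      · exact ⟨⟨n, by omega⟩, rfl⟩
  constructor
  · intro h
    ext y
    rw [key]
    exact h y
  · rintro rfl y
    exact key y

theorem runOne_V (hc : Function.Injective c) (s : List (Bd → ℕ) → Bd → ℕ) (g : ℕ → Bd → ℕ)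
    (b : Bd) (x y : ℕ → ℕ) :
    RunOne VE omz (sz c s) (pz c g) (c b) (wz x) (wz y) ↔
      x = (fun n => s ((List.range n).map g) b) ∧ y = fun n => g n b := by
  constructor
  · intro h
    refine ⟨?_, ?_⟩
    · funext n
      obtain ⟨⟨k, hk, hx⟩, _⟩ := h (num n) ((mem_omz' _).2 ⟨n, rfl⟩)
      rw [resp_V hc] at hk
      unfold wz at hx
      rw [app_fz' num_inj] at hx
      exact num_inj (hx.symm.trans hk)
    · funext n
      obtain ⟨_, k, hk, hy⟩ := h (num n) ((mem_omz' _).2 ⟨n, rfl⟩)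
      rw [valAt_V hc] at hk
      unfold wz at hy
      rw [app_fz' num_inj] at hy
      exact num_inj (hy.symm.trans hk)
  · rintro ⟨rfl, rfl⟩ n hn
    obtain ⟨n, rfl⟩ := (mem_omz' n).1 hn
    exact ⟨⟨_, (resp_V hc s g n b _).2 rfl, (app_fz' num_inj _ n _).2 rfl⟩,
      ⟨_, (valAt_V hc g n b _).2 rfl, (app_fz' num_inj _ n _).2 rfl⟩⟩

theorem runTwo_V (hc : Function.Injective c) (t : List (Bd → ℕ) → Bd → ℕ) (f : ℕ → Bd → ℕ)
    (b : Bd) (x y : ℕ → ℕ) :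
    RunTwo VE omz (sz c t) (pz c f) (c b) (wz x) (wz y) ↔
      x = (fun n => f n b) ∧ y = fun n => t ((List.range (n + 1)).map f) b := by
  constructor
  · intro h
    refine ⟨?_, ?_⟩
    · funext n
      obtain ⟨⟨k, hk, hx⟩, _⟩ := h (num n) ((mem_omz' _).2 ⟨n, rfl⟩)
      rw [valAt_V hc] at hk
      unfold wz at hx
      rw [app_fz' num_inj] at hx
      exact num_inj (hx.symm.trans hk)
    · funext n
      obtain ⟨_, n', k, hn', hk, hy⟩ := h (num n) ((mem_omz' _).2 ⟨n, rfl⟩)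
      rw [isSuc_V] at hn'
      subst hn'
      rw [resp_V hc] at hk
      unfold wz at hy
      rw [app_fz' num_inj] at hy
      exact num_inj (hy.symm.trans hk)
  · rintro ⟨rfl, rfl⟩ n hn
    obtain ⟨n, rfl⟩ := (mem_omz' n).1 hn
    exact ⟨⟨_, (valAt_V hc f n b _).2 rfl, (app_fz' num_inj _ n _).2 rfl⟩,
      ⟨_, _, (isSuc_V n _).2 rfl, (resp_V hc t f (n + 1) b _).2 rfl, (app_fz' num_inj _ n _).2 rfl⟩⟩

/-- the payoff set of the runs -/
def runs (A : ZFSet.{0}) : Set (ℕ → ℕ) :=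
  {z | ∃ x y, z = Pool.H46VL.weave x y ∧ App VE A (wz x) (wz y)}

theorem weave_mem_runs (A : ZFSet.{0}) (x y : ℕ → ℕ) :
    Pool.H46VL.weave x y ∈ runs A ↔ App VE A (wz x) (wz y) := by
  constructor
  · rintro ⟨x', y', h, h'⟩
    obtain ⟨rfl, rfl⟩ := Pool.H46VL.weave_inj h
    exact h'
  · exact fun h => ⟨x, y, rfl, h⟩

/-- ONE wins in `(ZFSet, ∈)` iff ONE wins the game of functions in Lean -/
theorem oneWins_V (hc : Function.Injective c) (hD : ∀ x, VE x D ↔ ∃ b, x = c b) {A : ZFSet.{0}}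
    (hA : IsPayoff VE omz A) : OneWins VE omz D A ↔ Pool.H46VL.OneWins Bd (runs A) := by
  constructor
  · rintro ⟨s, hs, h⟩
    obtain ⟨s, rfl⟩ := (isStrat_V hc hD s).1 hs
    refine ⟨s, fun g => ?_⟩
    obtain ⟨b, x, y, hb, hxy, hrun⟩ := h (pz c g) ((isPlay_V hc hD _).2 ⟨g, rfl⟩)
    obtain ⟨b, rfl⟩ := (hD b).1 hb
    obtain ⟨x, rfl⟩ := (isFun_wz x).1 (hA x y hxy).1
    obtain ⟨y, rfl⟩ := (isFun_wz y).1 (hA _ _ hxy).2
    obtain ⟨rfl, rfl⟩ := (runOne_V hc s g b x y).1 hrun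
    exact ⟨b, (weave_mem_runs A _ _).2 hxy⟩
  · rintro ⟨s, h⟩
    refine ⟨sz c s, (isStrat_V hc hD _).2 ⟨s, rfl⟩, fun g hg => ?_⟩
    obtain ⟨g, rfl⟩ := (isPlay_V hc hD g).1 hg
    obtain ⟨b, hb⟩ := h g
    exact ⟨c b, _, _, (hD _).2 ⟨b, rfl⟩, (weave_mem_runs A _ _).1 hb,
      (runOne_V hc s g b _ _).2 ⟨rfl, rfl⟩⟩

/-- TWO wins in `(ZFSet, ∈)` iff TWO wins the game of functions in Lean -/
theorem twoWins_V (hc : Function.Injective c) (hD : ∀ x, VE x D ↔ ∃ b, x = c b) {A : ZFSet.{0}}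
    (hA : IsPayoff VE omz A) : TwoWins VE omz D A ↔ Pool.H46VL.TwoWins Bd (runs A) := by
  constructor
  · rintro ⟨t, ht, h⟩
    obtain ⟨t, rfl⟩ := (isStrat_V hc hD t).1 ht
    refine ⟨t, fun f b hfb => ?_⟩
    exact h (pz c f) ((isPlay_V hc hD _).2 ⟨f, rfl⟩) (c b) _ _ ((hD _).2 ⟨b, rfl⟩)
      ((weave_mem_runs A _ _).1 hfb) ((runTwo_V hc t f b _ _).2 ⟨rfl, rfl⟩)
  · rintro ⟨t, h⟩
    refine ⟨sz c t, (isStrat_V hc hD _).2 ⟨t, rfl⟩, fun f hf b x y hb hxy hrun => ?_⟩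
    obtain ⟨f, rfl⟩ := (isPlay_V hc hD f).1 hf
    obtain ⟨b, rfl⟩ := (hD b).1 hb
    obtain ⟨x, rfl⟩ := (isFun_wz x).1 (hA x y hxy).1
    obtain ⟨y, rfl⟩ := (isFun_wz y).1 (hA _ _ hxy).2
    obtain ⟨rfl, rfl⟩ := (runTwo_V hc t f b x y).1 hrun
    exact h f b ((weave_mem_runs A _ _).2 hxy)

end Boards

/-- every type is in bijection with a set -/
theorem exists_set (Bd : Type) : ∃ (D : ZFSet.{0}) (c : Bd → ZFSet.{0}), Function.Injective c ∧
    ∀ x, VE x D ↔ ∃ b, x = c b := by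
  obtain ⟨i⟩ : Nonempty (Bd ↪ (Cardinal.mk Bd).ord.ToType) := by
    rw [← Cardinal.le_def, Cardinal.mk_toType, Cardinal.card_ord]
  let c : Bd → ZFSet.{0} := fun b => ((i b).toOrd : Ordinal.{0}).toZFSet
  refine ⟨ZFSet.range c, c, ?_, fun x => ?_⟩
  · intro a b hab
    have h1 : ((i a).toOrd : Ordinal.{0}) = ((i b).toOrd : Ordinal.{0}) :=
      Ordinal.toZFSet_injective hab
    exact i.injective ((Ordinal.ToType.mk (o := (Cardinal.mk Bd).ord)).symm.injective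
      (Subtype.ext h1))
  · show x ∈ ZFSet.range c ↔ _
    rw [ZFSet.mem_range]
    exact ⟨fun ⟨b, hb⟩ => ⟨b, hb.symm⟩, fun ⟨b, hb⟩ => ⟨b, hb.symm⟩⟩

/-- every set is in bijection with a type -/
theorem exists_type (D : ZFSet.{0}) : ∃ (Bd : Type) (c : Bd → ZFSet.{0}), Function.Injective c ∧
    ∀ x, VE x D ↔ ∃ b, x = c b := by
  refine ⟨Shrink.{0} {x : ZFSet.{0} // x ∈ D}, fun b => ((equivShrink _).symm b).1, ?_, fun x => ?_⟩
  · intro a b hab
    exact (equivShrink _).symm.injective (Subtype.ext hab)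
  · constructor
    · intro hx
      exact ⟨equivShrink _ ⟨x, hx⟩, by simp⟩
    · rintro ⟨b, rfl⟩
      exact ((equivShrink _).symm b).2

/-- payoff sets of functions and payoff sets in `(ZFSet, ∈)` -/
theorem exists_payoff (S : Set (ℕ → ℕ)) : ∃ A : ZFSet.{0}, IsPayoff VE omz A ∧ runs A = S := by
  let c : {p : (ℕ → ℕ) × (ℕ → ℕ) // Pool.H46VL.weave p.1 p.2 ∈ S} → ZFSet.{0} :=
    fun p => ZFSet.pair (wz p.1.1) (wz p.1.2)
  have hc : ∀ x y, App VE (ZFSet.range c) x y ↔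
      ∃ x' y', x = wz x' ∧ y = wz y' ∧ Pool.H46VL.weave x' y' ∈ S := by
    intro x y
    rw [app_V, ZFSet.mem_range]
    constructor
    · rintro ⟨p, hp⟩
      obtain ⟨h1, h2⟩ := ZFSet.pair_inj.1 hp
      exact ⟨p.1.1, p.1.2, h1.symm, h2.symm, p.2⟩
    · rintro ⟨x', y', rfl, rfl, h⟩
      exact ⟨⟨(x', y'), h⟩, rfl⟩
  refine ⟨ZFSet.range c, ?_, ?_⟩
  · intro x y hxy
    obtain ⟨x', y', rfl, rfl, _⟩ := (hc x y).1 hxy
    exact ⟨(isFun_wz _).2 ⟨x', rfl⟩, (isFun_wz _).2 ⟨y', rfl⟩⟩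
  · ext z
    constructor
    · rintro ⟨x, y, rfl, h⟩
      obtain ⟨x', y', h1, h2, h3⟩ := (hc _ _).1 h
      rw [wz_inj h1, wz_inj h2]
      exact h3
    · intro hz
      have h1 : z = Pool.H46VL.weave (fun n => z (2 * n)) (fun n => z (2 * n + 1)) := by
        funext n
        unfold Pool.H46VL.weave
        by_cases hn : n % 2 = 0
        · rw [if_pos hn]
          congr 1
          omega
        · rw [if_neg hn]
          congr 1
          omega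
      exact ⟨_, _, h1, (hc _ _).2 ⟨_, _, rfl, rfl, h1 ▸ hz⟩⟩

/-- The sentence `UndetAll` for all sets -/
theorem undetAll_V : UndetAll (fun x y : ZFSet.{0} => x ∈ y) ↔
    ∃ S : Set (ℕ → ℕ), ∀ B : Type, Nonempty B → Pool.H46VL.Undetermined B S := by
  constructor
  · rintro ⟨w, A, hw, hA, h⟩
    have hw' := (isOmega_V w).1 hw
    subst hw'
    refine ⟨runs A, fun Bd hBd => ?_⟩
    obtain ⟨D, c, hc, hD⟩ := exists_set Bd
    obtain ⟨b⟩ := hBd
    obtain ⟨h1, h2⟩ := h D ⟨c b, (hD _).2 ⟨b, rfl⟩⟩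
    exact ⟨fun h3 => h1 ((oneWins_V hc hD hA).2 h3), fun h3 => h2 ((twoWins_V hc hD hA).2 h3)⟩
  · rintro ⟨S, hS⟩
    obtain ⟨A, hA, rfl⟩ := exists_payoff S
    refine ⟨omz, A, (isOmega_V _).2 rfl, hA, fun D hne => ?_⟩
    obtain ⟨Bd, c, hc, hD⟩ := exists_type D
    have hBd : Nonempty Bd := by
      obtain ⟨x, hx⟩ := hne
      obtain ⟨b, _⟩ := (hD x).1 hx
      exact ⟨b⟩
    obtain ⟨h1, h2⟩ := hS Bd hBd
    exact ⟨fun h3 => h1 ((oneWins_V hc hD hA).1 h3), fun h3 => h2 ((twoWins_V hc hD hA).1 h3)⟩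

end MB
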