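import Pool.Agent.H46.MD.Sent
import Pool.Agent.H33.MB.Real

/-!
# The meaning of the sentence `DetLarge` in `(ZFSet, ∈)`
-/

set_option autoImplicit false

namespace MB

open BV PK HF Pool.Agent.H86.CM MDI

theorem enc_inj : Function.Injective (enc : Set ℕ → ZFSet.{0}) := fun a b h => by
  rw [← dec_enc a, h, dec_enc]

/-- injections of the set of all subsets of `ω` into a set -/
theorem injOn_pow {P D : ZFSet.{0}} (hP : ∀ x, VE x P ↔ ∀ z, VE z x → VE z omz) {Bd : Type}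
    {c : Bd → ZFSet.{0}} (hc : Function.Injective c) (hD : ∀ x, VE x D ↔ ∃ b, x = c b) :
    (∃ j, InjOn VE j (fun x => VE x P) (fun x => VE x D)) ↔ Cardinal.continuum ≤ Cardinal.mk Bd := by
  have hP' : ∀ x, VE x P ↔ ∃ a : Set ℕ, x = enc a := by
    intro x
    rw [hP]
    constructor
    · intro h
      exact ⟨dec x, (enc_dec h).symm⟩
    · rintro ⟨a, rfl⟩
      exact isReal_enc a
  have hR : Cardinal.mk (Set ℕ) = Cardinal.continuum := by
    rw [Cardinal.mk_set, Cardinal.mk_nat, Cardinal.two_power_aleph0]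
  rw [← hR, Cardinal.le_def]
  constructor
  · rintro ⟨j, h1, h2, h3⟩
    have h4 : ∀ a : Set ℕ, ∃ b : Bd, App VE j (enc a) (c b) := by
      intro a
      obtain ⟨y, hy, hay⟩ := h1 (enc a) ((hP' _).2 ⟨a, rfl⟩)
      obtain ⟨b, rfl⟩ := (hD y).1 hy
      exact ⟨b, hay⟩
    choose f hf using h4
    refine ⟨⟨f, fun a a' haa => ?_⟩⟩
    have h5 := hf a'
    rw [← haa] at h5
    exact enc_inj (h3 _ _ _ ((hP' _).2 ⟨a, rfl⟩) ((hP' _).2 ⟨a', rfl⟩) (hf a) h5)
  · rintro ⟨f⟩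
    refine ⟨fz enc c f, fun x hx => ?_, fun x y y' hx h1 h2 => ?_, fun x x' y _ _ h1 h2 => ?_⟩
    · obtain ⟨a, rfl⟩ := (hP' x).1 hx
      exact ⟨c (f a), (hD _).2 ⟨_, rfl⟩, (app_fz' enc_inj f a _).2 rfl⟩
    · obtain ⟨a, rfl⟩ := (hP' x).1 hx
      rw [app_fz' enc_inj] at h1 h2
      rw [h1, h2]
    · rw [app_fz] at h1 h2
      obtain ⟨a, rfl, rfl⟩ := h1
      obtain ⟨a', rfl, h⟩ := h2
      rw [f.injective (hc h)]

theorem exists_pow : ∃ P : ZFSet.{0}, ∀ x, VE x P ↔ ∀ z, VE z x → VE z omz :=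
  ⟨ZFSet.powerset omz, fun x => by
    show x ∈ ZFSet.powerset omz ↔ _
    rw [ZFSet.mem_powerset]
    exact ⟨fun h z hz => h hz, fun h z hz => h z hz⟩⟩

/-- The sentence `DetLarge` for all sets -/
theorem detLarge_V : DetLarge (fun x y : ZFSet.{0} => x ∈ y) ↔
    ∀ (S : Set (ℕ → ℕ)) (B : Type), Cardinal.continuum ≤ Cardinal.mk B →
      Pool.H46VL.OneWins B S ∨ Pool.H46VL.TwoWins B S := by
  constructor
  · rintro ⟨w, P, hw, hP, h⟩ S Bd hBd
    have hw' := (isOmega_V w).1 hw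
    subst hw'
    obtain ⟨D, c, hc, hD⟩ := exists_set Bd
    obtain ⟨A, hA, rfl⟩ := exists_payoff S
    rcases h D ((injOn_pow hP hc hD).2 hBd) A hA with h1 | h1
    · exact Or.inl ((oneWins_V hc hD hA).1 h1)
    · exact Or.inr ((twoWins_V hc hD hA).1 h1)
  · intro h
    obtain ⟨P, hP⟩ := exists_pow
    refine ⟨omz, P, (isOmega_V _).2 rfl, hP, fun D hj A hA => ?_⟩
    obtain ⟨Bd, c, hc, hD⟩ := exists_type D
    rcases h (runs A) Bd ((injOn_pow hP hc hD).1 hj) with h1 | h1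
    · exact Or.inl ((oneWins_V hc hD hA).2 h1)
    · exact Or.inr ((twoWins_V hc hD hA).2 h1)

end MB
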