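import Pool.Agent.H92.PK.Defs
import Pool.Agent.H86.CM.FO

/-!
# Multiboard games inside a model of set theory

`(M, E)` is a structure for the language of set theory. `IsOPair`, `App` (`⟨x, y⟩ ∈ f`) are from
`Pool.Agent.H26.BV.Defs`, `IsOmega` (`w` is `ω`) from `Pool.Agent.H92.PK.Defs`, `IsSuc`
(`y = x ∪ {x}`) from `Pool.Agent.H86.CM.IDefs`.

The payoff set `A` is a set of pairs `⟨x, y⟩` of functions from `ω` to `ω`: `x` are the moves of ONE
and `y` are the moves of TWO on a board (a run `x 0, y 0, x 1, y 1, …`).
-/

set_option autoImplicit false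

universe v

namespace MB

open BV PK

section Defs

variable {M : Type v}

/-- `f` is a function from the class `X` to the class `Y` -/
def IsFun (E : M → M → Prop) (f : M) (X Y : M → Prop) : Prop :=
  (∀ p, E p f → ∃ x y, X x ∧ Y y ∧ IsOPair E p x y) ∧
  (∀ x, X x → ∃ y, App E f x y) ∧
  ∀ x y y', App E f x y → App E f x y' → y = y'

/-- a move: a function from the set `B` of the boards to `ω = w` -/
def IsMove (E : M → M → Prop) (w B m : M) : Prop := IsFun E m (fun x => E x B) (fun y => E y w)

/-- a sequence of `n` moves -/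
def IsPos (E : M → M → Prop) (w B n p : M) : Prop := IsFun E p (fun x => E x n) (IsMove E w B)

/-- an infinite sequence of moves (all the moves of a player in a play) -/
def IsPlay (E : M → M → Prop) (w B g : M) : Prop := IsFun E g (fun x => E x w) (IsMove E w B)

/-- a strategy: a function which assigns a move to every finite sequence of moves -/
def IsStrat (E : M → M → Prop) (w B s : M) : Prop :=
  IsFun E s (fun p => ∃ n, E n w ∧ IsPos E w B n p) (IsMove E w B)

/-- `p` is the restriction of the function `g` to `n` -/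
def IsRes (E : M → M → Prop) (g n p : M) : Prop :=
  ∀ q, E q p ↔ E q g ∧ ∃ x y, E x n ∧ IsOPair E q x y

/-- `k` is the value on the board `b` of the `n`-th move of `g` -/
def ValAt (E : M → M → Prop) (g n b k : M) : Prop := ∃ m, App E g n m ∧ App E m b k

/-- `k` is the value on the board `b` of the move which `s` assigns to the first `n` moves of `g` -/
def Resp (E : M → M → Prop) (s g n b k : M) : Prop :=
  ∃ p m, IsRes E g n p ∧ App E s p m ∧ App E m b k

/-- ONE follows the strategy `s` and TWO plays `g`: `x` and `y` are the moves of ONE and of TWO on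
the board `b` -/
def RunOne (E : M → M → Prop) (w s g b x y : M) : Prop :=
  ∀ n, E n w → (∃ k, Resp E s g n b k ∧ App E x n k) ∧ ∃ k, ValAt E g n b k ∧ App E y n k

/-- TWO follows the strategy `t` and ONE plays `f`: `x` and `y` are the moves of ONE and of TWO on
the board `b` -/
def RunTwo (E : M → M → Prop) (w t f b x y : M) : Prop :=
  ∀ n, E n w → (∃ k, ValAt E f n b k ∧ App E x n k) ∧
    ∃ n' k, Pool.Agent.H86.CM.IsSuc E n n' ∧ Resp E t f n' b k ∧ App E y n k

/-- ONE has a winning strategy in the game with the set `B` of boards and the payoff set `A` -/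
def OneWins (E : M → M → Prop) (w B A : M) : Prop :=
  ∃ s, IsStrat E w B s ∧ ∀ g, IsPlay E w B g →
    ∃ b x y, E b B ∧ App E A x y ∧ RunOne E w s g b x y

/-- TWO has a winning strategy in the game with the set `B` of boards and the payoff set `A` -/
def TwoWins (E : M → M → Prop) (w B A : M) : Prop :=
  ∃ t, IsStrat E w B t ∧ ∀ f, IsPlay E w B f →
    ∀ b x y, E b B → App E A x y → ¬ RunTwo E w t f b x y

/-- `A` is a payoff set: its pairs consist of functions from `ω = w` to `ω` -/
def IsPayoff (E : M → M → Prop) (w A : M) : Prop :=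
  ∀ x y, App E A x y → IsFun E x (fun n => E n w) (fun k => E k w) ∧
    IsFun E y (fun n => E n w) (fun k => E k w)

/-- There is a payoff set for which the game is undetermined for every nonempty set `B` of boards.-/
def UndetAll (E : M → M → Prop) : Prop :=
  ∃ w A, IsOmega E w ∧ IsPayoff E w A ∧
    ∀ B, (∃ b, E b B) → ¬ OneWins E w B A ∧ ¬ TwoWins E w B A

end Defs

open Pool.Agent.H86.CM

theorem fo_move (i j k : ℕ) : FO.{v} fun _ E w => IsMove E (w i) (w j) (w k) := by
  unfold IsMove IsFun
  repeat' first
    | exact fo_mem _ _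
    | exact fo_eq _ _
    | exact fo_opair _ _ _
    | exact fo_app _ _ _
    | refine fo_and ?_ ?_
    | refine fo_imp ?_ ?_
    | refine fo_all ?_
    | refine fo_ex ?_

theorem fo_pos (i j k l : ℕ) : FO.{v} fun _ E w => IsPos E (w i) (w j) (w k) (w l) := by
  unfold IsPos IsFun
  repeat' first
    | exact fo_mem _ _
    | exact fo_eq _ _
    | exact fo_opair _ _ _
    | exact fo_app _ _ _
    | exact fo_move _ _ _
    | refine fo_and ?_ ?_
    | refine fo_imp ?_ ?_
    | refine fo_all ?_
    | refine fo_ex ?_

theorem fo_play (i j k : ℕ) : FO.{v} fun _ E w => IsPlay E (w i) (w j) (w k) := by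
  unfold IsPlay IsFun
  repeat' first
    | exact fo_mem _ _
    | exact fo_eq _ _
    | exact fo_opair _ _ _
    | exact fo_app _ _ _
    | exact fo_move _ _ _
    | refine fo_and ?_ ?_
    | refine fo_imp ?_ ?_
    | refine fo_all ?_
    | refine fo_ex ?_

theorem fo_strat (i j k : ℕ) : FO.{v} fun _ E w => IsStrat E (w i) (w j) (w k) := by
  unfold IsStrat IsFun
  repeat' first
    | exact fo_mem _ _
    | exact fo_eq _ _
    | exact fo_opair _ _ _
    | exact fo_app _ _ _
    | exact fo_move _ _ _
    | exact fo_pos _ _ _ _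
    | refine fo_and ?_ ?_
    | refine fo_imp ?_ ?_
    | refine fo_all ?_
    | refine fo_ex ?_

theorem fo_res (i j k : ℕ) : FO.{v} fun _ E w => IsRes E (w i) (w j) (w k) := by
  unfold IsRes
  repeat' first
    | exact fo_mem _ _
    | exact fo_opair _ _ _
    | refine fo_iff ?_ ?_
    | refine fo_and ?_ ?_
    | refine fo_all ?_
    | refine fo_ex ?_

theorem fo_valAt (i j k l : ℕ) : FO.{v} fun _ E w => ValAt E (w i) (w j) (w k) (w l) := by
  unfold ValAt
  repeat' first
    | exact fo_app _ _ _
    | refine fo_and ?_ ?_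
    | refine fo_ex ?_

theorem fo_resp (i j k l m : ℕ) : FO.{v} fun _ E w => Resp E (w i) (w j) (w k) (w l) (w m) := by
  unfold Resp
  repeat' first
    | exact fo_app _ _ _
    | exact fo_res _ _ _
    | refine fo_and ?_ ?_
    | refine fo_ex ?_

theorem fo_runOne (i j k l m n : ℕ) :
    FO.{v} fun _ E w => RunOne E (w i) (w j) (w k) (w l) (w m) (w n) := by
  unfold RunOne
  repeat' first
    | exact fo_mem _ _
    | exact fo_app _ _ _
    | exact fo_valAt _ _ _ _
    | exact fo_resp _ _ _ _ _
    | refine fo_and ?_ ?_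
    | refine fo_imp ?_ ?_
    | refine fo_all ?_
    | refine fo_ex ?_

theorem fo_runTwo (i j k l m n : ℕ) :
    FO.{v} fun _ E w => RunTwo E (w i) (w j) (w k) (w l) (w m) (w n) := by
  unfold RunTwo
  repeat' first
    | exact fo_mem _ _
    | exact fo_app _ _ _
    | exact fo_suc _ _
    | exact fo_valAt _ _ _ _
    | exact fo_resp _ _ _ _ _
    | refine fo_and ?_ ?_
    | refine fo_imp ?_ ?_
    | refine fo_all ?_
    | refine fo_ex ?_

/-- the winning property of the strategy `w k` of ONE -/
theorem fo_one (i j k l : ℕ) : FO.{v} fun _ E w => IsStrat E (w i) (w j) (w k) ∧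
    ∀ g, IsPlay E (w i) (w j) g →
      ∃ b x y, E b (w j) ∧ App E (w l) x y ∧ RunOne E (w i) (w k) g b x y := by
  repeat' first
    | exact fo_mem _ _
    | exact fo_app _ _ _
    | exact fo_strat _ _ _
    | exact fo_play _ _ _
    | exact fo_runOne _ _ _ _ _ _
    | refine fo_and ?_ ?_
    | refine fo_imp ?_ ?_
    | refine fo_all ?_
    | refine fo_ex ?_

end MB
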