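import Pool.Agent.H33.MB.Nm

/-!
# Names of plays, positions and of functions from `ω` to `ω`
-/

set_option autoImplicit false

namespace MB

open BV PK HM HC Pool.Agent.H86.CM

variable {B : Type} [CompleteBooleanAlgebra B]

/-- name of `ω` with the index set `ℕ` -/
noncomputable def omn (B : Type) [CompleteBooleanAlgebra B] : BSet B :=
  BSet.mk ℕ (fun n => chk B (n : Ordinal.{0})) fun _ => ⊤

theorem dj_omn : Dj (omn B) := by
  intro i j hij
  show (⊤ : B) ⊓ ⊤ ⊓ beq (chk B ((show ℕ from i : ℕ) : Ordinal.{0}))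
    (chk B ((show ℕ from j : ℕ) : Ordinal.{0})) = ⊥
  rw [beq_chk_of_ne, inf_bot_eq]
  intro h
  exact hij (by exact_mod_cast h)

theorem mk_omn (U : UF B) : MU.mk U (omn B) = om U := by
  refine MU.ext_E U _ _ fun z => ?_
  constructor
  · intro hz
    refine ball_nam (P := fun (M : Type 1) E w => E (w 0) (w 1)) (FDef.mem 0 1)
      (fun _ => chk B Ordinal.omega0) (omn B) ⊤ ?_ U U.top_mem z hz
    intro V _ n _
    exact E_nn_om V n
  · intro hz
    refine ball_om (P := fun (M : Type 1) E w => E (w 0) (w 1)) (FDef.mem 0 1)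
      (fun _ => omn B) ⊤ ?_ U U.top_mem z hz
    intro V _ n
    show bmem (chk B (n : Ordinal.{0})) (omn B) ∈ V
    exact V.mem_of_le V.top_mem (vl_le_bmem (omn B) n)

/-- name of the function from `ω` to `ω` with the Boolean values `F n k` of `n ↦ k` -/
noncomputable def fnn (F : ℕ → ℕ → B) : BSet B := mvn (omn B) F

theorem app_fnn (F : ℕ → ℕ → B) (U : UF B) (n k : ℕ) :
    App (MU.E U) (MU.mk U (fnn F)) (nn U n) (nn U k) ↔ F n k ∈ U :=
  app_mvn dj_omn U n U.top_mem F k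

theorem isFun_fnn {F : ℕ → ℕ → B} (hF : ∀ n, Pt (F n)) (U : UF B) :
    IsFun (MU.E U) (MU.mk U (fnn F)) (fun n => MU.E U n (om U)) (fun k => MU.E U k (om U)) := by
  have h := isMove_mvn dj_omn (v := F) hF U
  unfold IsMove at h
  rw [mk_omn] at h
  exact h

/-- name of the sequence `A 0, …, A (N - 1)` -/
noncomputable def sqn (N : ℕ) (A : ℕ → BSet B) : BSet B :=
  BSet.mk (Fin N) (fun n => opr (chk B ((n : ℕ) : Ordinal.{0})) (A n)) fun _ => ⊤

theorem isPlay_sq {D : BSet B} {A : ℕ → BSet B}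
    (hA : ∀ (V : UF B) (n : ℕ), IsMove (MU.E V) (om V) (MU.mk V D) (MU.mk V (A n))) (U : UF B) :
    IsPlay (MU.E U) (om U) (MU.mk U D) (MU.mk U (sq A)) := by
  have h1 : ∀ p, MU.E U p (MU.mk U (sq A)) → ∃ x y, MU.E U x (om U) ∧
      IsMove (MU.E U) (om U) (MU.mk U D) y ∧ IsOPair (MU.E U) p x y := by
    have hP : FDef fun (M : Type 1) E w => ∃ x y, E x (w 1) ∧ IsMove E (w 1) (w 2) y ∧
        IsOPair E (w 0) x y := by
      show FO _
      repeat' first
        | exact fo_mem _ _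
        | exact fo_opair _ _ _
        | exact fo_move _ _ _
        | refine fo_and ?_ ?_
        | refine fo_ex ?_
    intro p hp
    refine ball_nam hP (scons (chk B Ordinal.omega0) fun _ => D) (sq A) ⊤ ?_ U U.top_mem p hp
    intro V _ n _
    exact ⟨nn V n, MU.mk V (A n), E_nn_om V n, hA V n, isOPair_opr V _ _⟩
  refine ⟨h1, ?_, ?_⟩
  · have hP : FDef fun (M : Type 1) E w => ∃ y, App E (w 1) (w 0) y := by
      show FO _
      repeat' first
        | exact fo_app _ _ _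
        | refine fo_ex ?_
    intro x hx
    refine ball_om hP (fun _ => sq A) ⊤ ?_ U U.top_mem x hx
    intro V _ n
    exact ⟨MU.mk V (A n), (app_sq V A n _).2 rfl⟩
  · have hP : FDef fun (M : Type 1) E w => ∀ a a', App E (w 1) (w 0) a → App E (w 1) (w 0) a' →
        a = a' := by
      show FO _
      repeat' first
        | exact fo_eq _ _
        | exact fo_app _ _ _
        | refine fo_imp ?_ ?_
        | refine fo_all ?_
    intro x y y' h2 h3
    have hx : MU.E U x (om U) := by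
      obtain ⟨p, hp, hpf⟩ := h2
      obtain ⟨a, b, ha, _, hab⟩ := h1 p hpf
      obtain ⟨rfl, rfl⟩ := isOPair_inj hp hab
      exact ha
    refine ball_om hP (fun _ => sq A) ⊤ ?_ U U.top_mem x hx y y' h2 h3
    intro V _ k a a' h4 h5
    have h4' := (app_sq V A k a).1 h4
    have h5' := (app_sq V A k a').1 h5
    rw [h4', h5']

theorem isRes_sqn (U : UF B) (A : ℕ → BSet B) (N : ℕ) :
    IsRes (MU.E U) (MU.mk U (sq A)) (nn U N) (MU.mk U (sqn N A)) := by
  intro q
  constructor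
  · have hP : FDef fun (M : Type 1) E w => E (w 0) (w 1) ∧ ∃ x y, E x (w 2) ∧
        IsOPair E (w 0) x y := by
      show FO _
      repeat' first
        | exact fo_mem _ _
        | exact fo_opair _ _ _
        | refine fo_and ?_ ?_
        | refine fo_ex ?_
    intro hq
    refine ball_nam hP (scons (sq A) fun _ => chk B (N : Ordinal.{0})) (sqn N A) ⊤ ?_ U
      U.top_mem q hq
    intro V _ n _
    have hn : ∃ m : Fin N, m = n := ⟨n, rfl⟩
    obtain ⟨m, hm⟩ := hn
    subst hm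
    refine ⟨?_, nn V m, MU.mk V (A m), (E_nn V m N).2 m.2, isOPair_opr V _ _⟩
    show bmem (opr (chk B ((m : ℕ) : Ordinal.{0})) (A m)) (sq A) ∈ V
    exact V.mem_of_le V.top_mem (vl_le_bmem (sq A) (m : ℕ))
  · have hP : FDef fun (M : Type 1) E w => (∃ x y, E x (w 2) ∧
        IsOPair E (w 0) x y) → E (w 0) (w 1) := by
      show FO _
      repeat' first
        | exact fo_mem _ _
        | exact fo_opair _ _ _
        | refine fo_and ?_ ?_
        | refine fo_imp ?_ ?_
        | refine fo_ex ?_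
    rintro ⟨hq, hx⟩
    refine ball_nam hP (scons (sqn N A) fun _ => chk B (N : Ordinal.{0})) (sq A) ⊤ ?_ U
      U.top_mem q hq hx
    intro V _ n _
    have hn : ∃ m : ℕ, m = n := ⟨n, rfl⟩
    obtain ⟨m, hm⟩ := hn
    subst hm
    rintro ⟨x, y, hx, hxy⟩
    obtain ⟨h1, _⟩ := isOPair_inj hxy (isOPair_opr V (chk B (m : Ordinal.{0})) (A m))
    have h2 : MU.E V (nn V m) (nn V N) := by
      rw [← show x = nn V m from h1]
      exact hx
    have h3 : m < N := (E_nn V m N).1 h2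
    show bmem (opr (chk B (m : Ordinal.{0})) (A m)) (sqn N A) ∈ V
    exact V.mem_of_le V.top_mem (vl_le_bmem (sqn N A) (⟨m, h3⟩ : Fin N))

theorem isRes_unique (U : UF B) {g n p p' : MU U} (h : IsRes (MU.E U) g n p)
    (h' : IsRes (MU.E U) g n p') : p = p' :=
  MU.ext_E U _ _ fun q => (h q).trans (h' q).symm

theorem app_sqn (U : UF B) (A : ℕ → BSet B) {N n : ℕ} (hn : n < N) (m : MU U) :
    App (MU.E U) (MU.mk U (sqn N A)) (nn U n) m ↔ m = MU.mk U (A n) := by
  rw [← app_sq U A n m]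
  constructor
  · rintro ⟨q, hq, hqf⟩
    exact ⟨q, hq, ((isRes_sqn U A N q).1 hqf).1⟩
  · rintro ⟨q, hq, hqf⟩
    exact ⟨q, hq, (isRes_sqn U A N q).2 ⟨hqf, nn U n, m, (E_nn U n N).2 hn, hq⟩⟩

theorem isPos_sqn {D : BSet B} {A : ℕ → BSet B}
    (hA : ∀ (V : UF B) (n : ℕ), IsMove (MU.E V) (om V) (MU.mk V D) (MU.mk V (A n))) (U : UF B)
    (N : ℕ) : IsPos (MU.E U) (om U) (MU.mk U D) (nn U N) (MU.mk U (sqn N A)) := by
  have hplay := isPlay_sq hA U
  refine ⟨?_, ?_, ?_⟩
  · intro p hp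
    obtain ⟨h1, x, y, hx, hxy⟩ := (isRes_sqn U A N p).1 hp
    obtain ⟨x', y', hx', hy', hxy'⟩ := hplay.1 p h1
    obtain ⟨rfl, rfl⟩ := isOPair_inj hxy hxy'
    exact ⟨x, y, hx, hy', hxy⟩
  · intro x hx
    obtain ⟨k, hk, rfl⟩ := mem_nn U N x hx
    exact ⟨MU.mk U (A k), (app_sqn U A hk _).2 rfl⟩
  · rintro x y y' ⟨p, hp, hpf⟩ ⟨p', hp', hpf'⟩
    exact hplay.2.2 x y y' ⟨p, hp, ((isRes_sqn U A N p).1 hpf).1⟩
      ⟨p', hp', ((isRes_sqn U A N p').1 hpf').1⟩

theorem isSuc_nn (U : UF B) (n : ℕ) : IsSuc (MU.E U) (nn U n) (nn U (n + 1)) := by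
  intro z
  constructor
  · intro hz
    obtain ⟨k, hk, rfl⟩ := mem_nn U (n + 1) z hz
    rcases Nat.lt_succ_iff_lt_or_eq.1 hk with h | h
    · exact Or.inl ((E_nn U k n).2 h)
    · exact Or.inr (by rw [h])
  · rintro (hz | hz)
    · obtain ⟨k, hk, rfl⟩ := mem_nn U n z hz
      exact (E_nn U k (n + 1)).2 (by omega)
    · rw [hz]
      exact (E_nn U n (n + 1)).2 (Nat.lt_succ_self n)

end MB
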