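import Pool.Agent.H33.MB.Coh

/-!
# TWO has no winning strategy
-/

set_option autoImplicit false

namespace MB

open BV PK HM HC Pool.Agent.H86.CM Cardinal

variable {X : Type} {B : Type} [CompleteBooleanAlgebra B]

/-- every set has a disjoint name -/
theorem exists_dj_name (U : UF B) (D : MU U) : ∃ D' : BSet B, MU.mk U D' = D ∧ Dj D' := by
  obtain ⟨D, rfl⟩ := MU.mk_surj U D
  obtain ⟨D', h1, h2⟩ := exists_dj D
  refine ⟨D', ?_, h2⟩
  rw [MU.mk_eq_iff, beq_symm, h1]
  exact U.top_mem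

theorem pt_one (c : ℕ) : Pt (fun k => if k = c then (⊤ : B) else ⊥) := by
  constructor
  · rw [eq_top_iff]
    exact le_iSup_of_le c (by simp)
  · intro k l hkl
    by_cases hk : k = c
    · have hl : l ≠ c := fun h => hkl (hk.trans h.symm)
      simp [hl]
    · simp [hk]

/-- constant moves, at arbitrary boards -/
theorem app_const {D : BSet B} (hD : Dj D) (v : ℕ → B) (U : UF B) (b : MU U)
    (hb : MU.E U b (MU.mk U D)) (k : ℕ) (hk : v k ∈ U) :
    App (MU.E U) (MU.mk U (mvn D fun _ => v)) b (nn U k) := by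
  have hP : FDef fun (M : Type 1) E w => App E (w 1) (w 0) (w 2) := by
    show FO _
    exact fo_app _ _ _
  refine ball_nam hP (scons (mvn D fun _ => v) fun _ => chk B (k : Ordinal.{0})) D (v k) ?_ U hk
    b hb
  intro V hV i hi
  exact (app_mvn hD V i hi (fun _ => v) k).2 hV

/-- name of the position in which ONE has played the constant moves with the values `u` -/
noncomputable def posu (D : BSet B) (u : List Bool) : BSet B :=
  sqn u.length fun j => mvn D fun _ k => if k = (if u.getD j false = true then 1 else 0) then ⊤ else ⊥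

theorem sqn_beq (N : ℕ) (A A' : ℕ → BSet B) (c : B) (h : ∀ n < N, c ≤ beq (A n) (A' n)) :
    c ≤ beq (sqn N A) (sqn N A') := by
  unfold sqn
  refine le_beq_nm _ _ _ _ fun n => ?_
  rw [beq_opr, beq_refl, top_inf_eq]
  exact h n n.2

theorem pos_eq {D : BSet B} (e : Cn X → B) (ξ : X) (n : ℕ) (V : UF B) :
    MU.mk V (sqn n fun j => mvn D fun _ k => cv e ξ j k) =
      MU.mk V (posu D (List.ofFn (ub e ξ V n))) := by
  classical
  set f := ub e ξ V n with hf
  have h0 : cb' e ξ n f ∈ V := (cb'_mem e ξ n f V).2 rfl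
  have hlen : (List.ofFn f).length = n := List.length_ofFn
  rw [MU.mk_eq_iff]
  refine V.mem_of_le h0 ?_
  unfold posu
  rw [hlen]
  refine sqn_beq n _ _ _ fun j hj => ?_
  have hget : (List.ofFn f).getD j false = f ⟨j, hj⟩ := by
    rw [List.getD_eq_getElem _ _ (by rw [hlen]; exact hj)]
    simp
  rw [hget]
  have hle : cb' e ξ n f ≤ if f ⟨j, hj⟩ = true then coh e ξ j else (coh e ξ j)ᶜ :=
    iInf₂_le (⟨j, hj⟩ : Fin n) (Finset.mem_univ _)
  unfold mvn
  refine le_beq_vl _ _ _ _ (fun z => ?_) (fun z => ?_)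
  · refine UF.le_of_forall fun W hW => ?_
    rw [UF.inf_mem_iff, UF.inf_mem_iff] at hW
    obtain ⟨h1, h2, h3⟩ := hW
    have h4 := W.mem_of_le h1 hle
    rw [UF.inf_mem_iff]
    refine ⟨h2, ?_⟩
    have h5 : z.2 = if f ⟨j, hj⟩ = true then 1 else 0 := by
      refine (pt_cv e ξ j).eq h3 ?_
      by_cases hb : f ⟨j, hj⟩ = true
      · rw [if_pos hb] at h4 ⊢
        simpa [cv] using h4
      · rw [if_neg hb] at h4 ⊢
        simpa [cv] using h4
    beta_reduce
    rw [if_pos h5]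
    exact W.top_mem
  · refine UF.le_of_forall fun W hW => ?_
    rw [UF.inf_mem_iff, UF.inf_mem_iff] at hW
    obtain ⟨h1, h2, h3⟩ := hW
    have h4 := W.mem_of_le h1 hle
    rw [UF.inf_mem_iff]
    refine ⟨h2, ?_⟩
    by_cases h5 : z.2 = if f ⟨j, hj⟩ = true then 1 else 0
    · beta_reduce
      rw [h5]
      by_cases hb : f ⟨j, hj⟩ = true
      · rw [if_pos hb] at h4 ⊢
        simpa [cv] using h4
      · rw [if_neg hb] at h4 ⊢
        simpa [cv] using h4
    · beta_reduce at h3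
      rw [if_neg h5] at h3
      exact absurd h3 W.bot_notMem

theorem not_twoWins {e : Cn X → B} {h : X → List Bool → ℕ → B}
    (hsurj : ∀ H : List Bool → ℕ → B, (∀ u, Pt (H u)) → ∃ ξ, h ξ = H) (U : UF B) (D : MU U)
    (hD : ∃ b, MU.E U b D) : ¬ TwoWins (MU.E U) (om U) D (MU.mk U (pay e h)) := by
  classical
  rintro ⟨t, ht, htw⟩
  obtain ⟨D, rfl, hdj⟩ := exists_dj_name U D
  obtain ⟨b, hb⟩ := hD
  obtain ⟨t, rfl⟩ := MU.mk_surj U t
  obtain ⟨b, rfl⟩ := MU.mk_surj U b
  have hPa : FDef fun (M : Type 1) E w => IsStrat E (w 0) (w 1) (w 2) ∧ E (w 3) (w 1) := by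
    show FO _
    repeat' first
      | exact fo_mem _ _
      | exact fo_strat _ _ _
      | refine fo_and ?_ ?_
  obtain ⟨a, ha⟩ := exists_val hPa (scons (chk B Ordinal.omega0) (scons D (scons t fun _ => b)))
  have ha' : ∀ V : UF B, a ∈ V → IsStrat (MU.E V) (om V) (MU.mk V D) (MU.mk V t) ∧
      MU.E V (MU.mk V b) (MU.mk V D) := fun V hV => (ha V).1 hV
  have haU : a ∈ U := (ha U).2 ⟨ht, hb⟩
  -- the answers of `t` to the constant moves, on the board `b`
  have hPH : FDef fun (M : Type 1) E w => ∃ m, App E (w 1) (w 2) m ∧ App E m (w 3) (w 0) := by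
    show FO _
    repeat' first
      | exact fo_app _ _ _
      | refine fo_and ?_ ?_
      | refine fo_ex ?_
  have hH0 : ∀ (u : List Bool) (k : ℕ), ∃ c : B, ∀ V : UF B, c ∈ V ↔
      ∃ m, App (MU.E V) (MU.mk V t) (MU.mk V (posu D u)) m ∧ App (MU.E V) m (MU.mk V b) (nn V k) :=
    fun u k => exists_val hPH (scons (chk B (k : Ordinal.{0})) (scons t (scons (posu D u)
      fun _ => b)))
  choose H hH using hH0
  -- the position is a position
  have hmv : ∀ (u : List Bool) (V : UF B) (j : ℕ), IsMove (MU.E V) (om V) (MU.mk V D)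
      (MU.mk V (mvn D fun _ k => if k = (if u.getD j false = true then 1 else 0) then ⊤ else ⊥)) :=
    fun u V j => isMove_mvn hdj (fun _ => pt_one _) V
  have hpos : ∀ (u : List Bool) (V : UF B), IsPos (MU.E V) (om V) (MU.mk V D) (nn V u.length)
      (MU.mk V (posu D u)) := fun u V => isPos_sqn (hmv u) V u.length
  have hans : ∀ (u : List Bool) (V : UF B), a ∈ V → ∃ m, App (MU.E V) (MU.mk V t)
      (MU.mk V (posu D u)) m ∧ IsMove (MU.E V) (om V) (MU.mk V D) m := by
    intro u V hV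
    obtain ⟨h1, h2⟩ := ha' V hV
    obtain ⟨m, hm⟩ := h1.2.1 (MU.mk V (posu D u)) ⟨nn V u.length, E_nn_om V _, hpos u V⟩
    refine ⟨m, hm, ?_⟩
    obtain ⟨q, hq, hqf⟩ := hm
    obtain ⟨x, y, _, hy, hxy⟩ := h1.1 q hqf
    obtain ⟨_, rfl⟩ := isOPair_inj hq hxy
    exact hy
  have hval : ∀ (u : List Bool) (V : UF B), a ∈ V → (⨆ k, H u k) ∈ V := by
    intro u V hV
    obtain ⟨m, hm, hmm⟩ := hans u V hV
    obtain ⟨k, hk⟩ := hmm.2.1 (MU.mk V b) (ha' V hV).2
    have hkom : MU.E V k (om V) := by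
      obtain ⟨q, hq, hqf⟩ := hk
      obtain ⟨x, y, _, hy, hxy⟩ := hmm.1 q hqf
      obtain ⟨_, rfl⟩ := isOPair_inj hq hxy
      exact hy
    exact bex_om hPH (scons t (scons (posu D u) fun _ => b)) (fun k => H u k)
      (fun W n hW => (hH u n W).2 hW) V ⟨k, hkom, m, hm, hk⟩
  let H' : List Bool → ℕ → B := fun u k => (a ⊓ H u k) ⊔ (if k = 0 then aᶜ else ⊥)
  have hH' : ∀ (u : List Bool) (k : ℕ) (V : UF B), a ∈ V → (H' u k ∈ V ↔ H u k ∈ V) := by
    intro u k V hV
    show (a ⊓ H u k) ⊔ (if k = 0 then aᶜ else ⊥) ∈ V ↔ _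
    rw [UF.sup_mem_iff, UF.inf_mem_iff]
    constructor
    · rintro (h1 | h1)
      · exact h1.2
      · by_cases hk : k = 0
        · rw [if_pos hk] at h1
          exact absurd hV (V.compl_mem_iff.1 h1)
        · rw [if_neg hk] at h1
          exact absurd h1 V.bot_notMem
    · exact fun h1 => Or.inl ⟨hV, h1⟩
  have hH'c : ∀ (u : List Bool) (k : ℕ) (V : UF B), a ∉ V → (H' u k ∈ V ↔ k = 0) := by
    intro u k V hV
    show (a ⊓ H u k) ⊔ (if k = 0 then aᶜ else ⊥) ∈ V ↔ _
    rw [UF.sup_mem_iff, UF.inf_mem_iff]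
    constructor
    · rintro (h1 | h1)
      · exact absurd h1.1 hV
      · by_contra hk
        rw [if_neg hk] at h1
        exact V.bot_notMem h1
    · intro hk
      rw [if_pos hk]
      exact Or.inr (V.compl_mem_iff.2 hV)
  have hptH : ∀ u, Pt (H' u) := by
    intro u
    constructor
    · refine UF.eq_top_of_forall fun V => ?_
      by_cases hV : a ∈ V
      · refine V.mem_of_le (V.inf_mem hV (hval u V hV)) ?_
        rw [inf_iSup_eq]
        exact iSup_mono fun k => le_sup_left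
      · exact V.mem_of_le ((hH'c u 0 V hV).2 rfl) (le_iSup (H' u) 0)
    · intro k l hkl
      refine UF.eq_bot_of_forall fun V hV => ?_
      rw [UF.inf_mem_iff] at hV
      by_cases haV : a ∈ V
      · rw [hH' u k V haV, hH' u l V haV, hH, hH] at hV
        obtain ⟨⟨m, hm, hmk⟩, ⟨m', hm', hml⟩⟩ := hV
        have h1 := (ha' V haV).1.2.2 _ _ _ hm hm'
        subst h1
        obtain ⟨m'', hm'', hmm⟩ := hans u V haV
        have h2 := (ha' V haV).1.2.2 _ _ _ hm hm''
        subst h2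
        exact hkl (nn_inj V (hmm.2.2 _ _ _ hmk hml))
      · rw [hH'c u k V haV, hH'c u l V haV] at hV
        exact hkl (hV.1.trans hV.2.symm)
  obtain ⟨ξ, hξ⟩ := hsurj H' hptH
  -- the play of ONE
  let F : ℕ → BSet B := fun n => mvn D fun _ k => cv e ξ n k
  have hFm : ∀ (V : UF B) (n : ℕ), IsMove (MU.E V) (om V) (MU.mk V D) (MU.mk V (F n)) :=
    fun V n => isMove_mvn hdj (fun _ => pt_cv e ξ n) V
  refine htw (MU.mk U (sq F)) (isPlay_sq hFm U) (MU.mk U b) (MU.mk U (fnn (cv e ξ)))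
    (MU.mk U (fnn (yv e (h ξ) ξ))) hb (app_pay e h ξ U) ?_
  -- the run
  have hPr : FDef fun (M : Type 1) E w => (∃ k, ValAt E (w 1) (w 0) (w 2) k ∧ App E (w 3) (w 0) k) ∧
      ∃ n' k, IsSuc E (w 0) n' ∧ Resp E (w 4) (w 1) n' (w 2) k ∧ App E (w 5) (w 0) k := by
    show FO _
    repeat' first
      | exact fo_app _ _ _
      | exact fo_suc _ _
      | exact fo_valAt _ _ _ _
      | exact fo_resp _ _ _ _ _
      | refine fo_and ?_ ?_
      | refine fo_ex ?_
  intro n hn
  refine ball_om hPr (scons (sq F) (scons b (scons (fnn (cv e ξ)) (scons t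
    fun _ => fnn (yv e (h ξ) ξ))))) a ?_ U haU n hn
  intro V hV n
  constructor
  · obtain ⟨k, -, hk⟩ := cv_mem e ξ n V
    refine ⟨nn V k, ⟨MU.mk V (F n), (app_sq V F n _).2 rfl, ?_⟩, (app_fnn _ V n k).2 hk⟩
    exact app_const hdj (fun k => cv e ξ n k) V (MU.mk V b) (ha' V hV).2 k hk
  · set u : List Bool := List.ofFn (ub e ξ V (n + 1)) with hu
    have hpu : MU.mk V (sqn (n + 1) F) = MU.mk V (posu D u) := pos_eq e ξ (n + 1) V
    obtain ⟨m, hm, hmm⟩ := hans u V hV
    obtain ⟨k, hk⟩ := hmm.2.1 (MU.mk V b) (ha' V hV).2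
    have hkom : MU.E V k (om V) := by
      obtain ⟨q, hq, hqf⟩ := hk
      obtain ⟨x, y, _, hy, hxy⟩ := hmm.1 q hqf
      obtain ⟨_, rfl⟩ := isOPair_inj hq hxy
      exact hy
    refine ⟨nn V (n + 1), k, isSuc_nn V n, ⟨MU.mk V (sqn (n + 1) F), m, isRes_sqn V F (n + 1),
      by rw [hpu]; exact hm, hk⟩, ?_⟩
    have hPk : FDef fun (M : Type 1) E w => (∃ m, App E (w 1) (w 2) m ∧ App E m (w 3) (w 0)) →
        App E (w 4) (w 5) (w 0) := by
      show FO _
      repeat' first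
        | exact fo_app _ _ _
        | refine fo_and ?_ ?_
        | refine fo_imp ?_ ?_
        | refine fo_ex ?_
    refine ball_om hPk (scons t (scons (posu D u) (scons b (scons (fnn (yv e (h ξ) ξ))
      fun _ => chk B (n : Ordinal.{0}))))) (a ⊓ cb' e ξ (n + 1) (ub e ξ V (n + 1))) ?_ V
      (V.inf_mem hV ((cb'_mem e ξ (n + 1) _ V).2 rfl)) k hkom ⟨m, hm, hk⟩
    intro W hW l hl
    rw [UF.inf_mem_iff, cb'_mem] at hW
    have h1 : H u l ∈ W := (hH u l W).2 hl
    have h2 : h ξ u l ∈ W := by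
      rw [hξ, hH' u l W hW.1]
      exact h1
    refine (app_fnn _ W n l).2 ?_
    rw [yv_mem, ← hW.2]
    exact h2

end MB
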